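import Pool.Agent.Lib.MP_b347ba_lc_h79.Leveled

/-!
# The cyclic order of the literals
-/

namespace Pool.MP_b347ba_lc

variable {n : ℕ}

/-- The number of a literal. -/
def qn (q : Lit n) : ℕ := 2 * q.1.val + q.2.toNat

theorem qn_lt (q : Lit n) : qn q < 2 * n := by
  obtain ⟨k, b⟩ := q
  have := k.isLt
  cases b <;> simp [qn] <;> omega

theorem qn_inj {q q' : Lit n} (h : qn q = qn q') : q = q' := by
  obtain ⟨k, b⟩ := q
  obtain ⟨k', b'⟩ := q'
  cases b <;> cases b' <;> simp [qn] at h ⊢ <;> first | (apply Fin.ext; omega) | omega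

theorem qn_nxt (q : Lit n) : qn (nxt q) = (qn q + 1) % (2 * n) := by
  obtain ⟨k, b⟩ := q
  have hk := k.isLt
  cases b
  · simp only [nxt, qn, Bool.toNat_false, Bool.toNat_true]
    rw [Nat.mod_eq_of_lt (by omega)]
  · simp only [nxt, qn, Bool.toNat_false, Bool.toNat_true]
    have : 2 * k.val + 1 + 1 = 2 * (k.val + 1) := by ring
    rw [this, Nat.mul_mod_mul_left]
    ring

theorem qn_iter (q : Lit n) (i : ℕ) : qn (nxt^[i] q) = (qn q + i) % (2 * n) := by
  induction i with
  | zero => simp [Nat.mod_eq_of_lt (qn_lt q)]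
  | succ i ih =>
    rw [Function.iterate_succ_apply', qn_nxt, ih, Nat.mod_add_mod, Nat.add_assoc]

theorem iter_full (q : Lit n) : nxt^[2 * n] q = q := by
  apply qn_inj
  rw [qn_iter, Nat.add_mod_right, Nat.mod_eq_of_lt (qn_lt q)]

/-- The position of `q` in the cyclic enumeration starting with `q₀`. -/
def ix (q₀ q : Lit n) : ℕ := (qn q + (2 * n - qn q₀)) % (2 * n)

theorem ix_lt (q₀ q : Lit n) : ix q₀ q < 2 * n :=
  Nat.mod_lt _ (by have := qn_lt q; omega)

theorem ix_iter (q₀ : Lit n) {i : ℕ} (hi : i < 2 * n) : ix q₀ (nxt^[i] q₀) = i := by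
  unfold ix
  rw [qn_iter, Nat.mod_add_mod]
  have := qn_lt q₀
  have e : qn q₀ + i + (2 * n - qn q₀) = i + 2 * n := by omega
  rw [e, Nat.add_mod_right, Nat.mod_eq_of_lt hi]

theorem iter_ix (q₀ q : Lit n) : nxt^[ix q₀ q] q₀ = q := by
  apply qn_inj
  rw [qn_iter]
  unfold ix
  rw [Nat.add_mod_mod]
  have h1 := qn_lt q₀
  have h2 := qn_lt q
  have e : qn q₀ + (qn q + (2 * n - qn q₀)) = qn q + 2 * n := by omega
  rw [e, Nat.add_mod_right, Nat.mod_eq_of_lt h2]

theorem ix_prv {q₀ q : Lit n} (h : q ≠ q₀) : ix q₀ q = ix q₀ (prv q) + 1 := by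
  have h1 := ix_lt q₀ q
  have h2 := iter_ix q₀ q
  obtain ⟨i, hi⟩ : ∃ i, ix q₀ q = i := ⟨_, rfl⟩
  rw [hi] at h1 h2 ⊢
  cases i with
  | zero => exact absurd h2.symm (by simpa using h)
  | succ i =>
    have e : prv q = nxt^[i] q₀ := by
      rw [← h2, Function.iterate_succ_apply', prv_nxt]
    rw [e, ix_iter q₀ (by omega)]

theorem ix_self (q₀ : Lit n) : ix q₀ q₀ = 0 := by
  have := ix_iter q₀ (i := 0) (by have := qn_lt q₀; omega)
  simpa using this

theorem ix_inj {q₀ q q' : Lit n} (h : ix q₀ q = ix q₀ q') : q = q' := by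
  rw [← iter_ix q₀ q, ← iter_ix q₀ q', h]

/-- The cyclic enumeration of the literals starting with `q₀`. -/
def cyc (q₀ : Lit n) : List (Lit n) := List.iterate nxt q₀ (2 * n)

theorem mem_cyc (q₀ q : Lit n) : q ∈ cyc q₀ := by
  unfold cyc
  rw [List.mem_iterate]
  exact ⟨ix q₀ q, ix_lt q₀ q, (iter_ix q₀ q).symm⟩

theorem pairwise_cyc (q₀ : Lit n) : (cyc q₀).Pairwise fun q q' => ix q₀ q < ix q₀ q' := by
  rw [List.pairwise_iff_getElem]
  intro i j hi hj hij
  simp only [cyc, List.length_iterate] at hi hj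
  simp only [cyc, List.getElem_iterate]
  rw [ix_iter q₀ hi, ix_iter q₀ hj]
  exact hij

theorem nodup_cyc (q₀ : Lit n) : (cyc q₀).Nodup :=
  (pairwise_cyc q₀).imp fun {a b} h => by rintro rfl; exact lt_irrefl _ h

/-- Shifting the boundaries of the blocks of a cyclic list. -/
theorem cyc_shift {α : Type} (F : Lit n → List α) (A B : Lit n → List α) (k : ℕ) (q : Lit n) :
    B q ++ (List.iterate nxt q k).flatMap (fun q => F q ++ (A (nxt q) ++ B (nxt q))) =
      (List.iterate nxt q k).flatMap (fun q => B q ++ (F q ++ A (nxt q))) ++ B (nxt^[k] q) := by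
  induction k generalizing q with
  | zero => simp
  | succ k ih =>
    have e : List.iterate nxt q (k + 1) = q :: List.iterate nxt (nxt q) k := rfl
    rw [e]
    simp only [List.flatMap_cons, List.append_assoc]
    rw [ih (nxt q), Function.iterate_succ_apply]

end Pool.MP_b347ba_lc
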