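import Pool.Agent.Lib.MP_b347ba_lc.Graph
import Pool.Agent.Lib.MP_b347ba_lc.LevelData

/-!
# The graph of a formula is leveled
-/

namespace Pool.MP_b347ba_lc

open Vx

variable {n m : ℕ}

theorem prv_nxt (q : Lit n) : prv (nxt q) = q := by
  obtain ⟨k, b⟩ := q
  cases b
  · rfl
  · have hk := k.isLt
    simp only [nxt, prv, Prod.mk.injEq, and_true]
    apply Fin.ext
    show ((k.val + 1) % n + (n - 1)) % n = k.val
    rw [Nat.mod_add_mod]
    have : k.val + 1 + (n - 1) = k.val + n := by omega
    rw [this, Nat.add_mod_right, Nat.mod_eq_of_lt hk]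

theorem nxt_prv (q : Lit n) : nxt (prv q) = q := by
  obtain ⟨k, b⟩ := q
  cases b
  · have hk := k.isLt
    simp only [nxt, prv, Prod.mk.injEq, and_true]
    apply Fin.ext
    show ((k.val + (n - 1)) % n + 1) % n = k.val
    rw [Nat.mod_add_mod]
    have : k.val + (n - 1) + 1 = k.val + n := by omega
    rw [this, Nat.add_mod_right, Nat.mod_eq_of_lt hk]
  · rfl

theorem neg_neg' (q : Lit n) : neg (neg q) = q := by
  simp [neg]

theorem mem_lits (q : Lit n) : q ∈ lits n := by
  obtain ⟨k, b⟩ := q
  simp only [lits, List.mem_flatMap]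
  refine ⟨k, List.mem_finRange k, ?_⟩
  cases b <;> simp

theorem nodup_lits (n : ℕ) : (lits n).Nodup := by
  unfold lits
  rw [List.nodup_flatMap]
  refine ⟨fun k _ => by simp, ?_⟩
  refine (List.nodup_finRange n).imp ?_
  intro a b hab
  simp [List.disjoint_left, Function.onFun, hab]

theorem mem_fam2 (f : Fin m → Lit n → Vx n m) (c : Fin m) (q : Lit n) : f c q ∈ fam2 f := by
  simp only [fam2, List.mem_flatMap, List.mem_map]
  exact ⟨c, List.mem_finRange c, q, mem_lits q, rfl⟩

theorem mem_fam3 (f : Fin m → Fin m → Lit n → Vx n m) (c c' : Fin m) (q : Lit n) :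
    f c c' q ∈ fam3 f := by
  simp only [fam3, List.mem_flatMap, List.mem_map]
  exact ⟨c, List.mem_finRange c, c', List.mem_finRange c', q, mem_lits q, rfl⟩

theorem of_mem_fam2 {f : Fin m → Lit n → Vx n m} {v : Vx n m} (h : v ∈ fam2 f) :
    ∃ c q, f c q = v := by
  simp only [fam2, List.mem_flatMap, List.mem_map] at h
  obtain ⟨c, _, q, _, h⟩ := h
  exact ⟨c, q, h⟩

theorem of_mem_fam3 {f : Fin m → Fin m → Lit n → Vx n m} {v : Vx n m} (h : v ∈ fam3 f) :
    ∃ c c' q, f c c' q = v := by
  simp only [fam3, List.mem_flatMap, List.mem_map] at h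
  obtain ⟨c, _, c', _, q, _, h⟩ := h
  exact ⟨c, c', q, h⟩

theorem nodup_fam2 (f : Fin m → Lit n → Vx n m)
    (hf : ∀ c q d p, f c q = f d p → c = d ∧ q = p) : (fam2 f).Nodup := by
  unfold fam2
  rw [List.nodup_flatMap]
  refine ⟨fun c _ => (nodup_lits n).map fun q p h => (hf _ _ _ _ h).2, ?_⟩
  refine (List.nodup_finRange m).imp ?_
  intro a b hab
  simp only [Function.onFun, List.disjoint_left, List.mem_map, not_exists, not_and]
  rintro v ⟨q, _, rfl⟩ p _ h
  exact hab (hf _ _ _ _ h).1.symm

theorem nodup_fam3 (f : Fin m → Fin m → Lit n → Vx n m)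
    (hf : ∀ c c' q d d' p, f c c' q = f d d' p → c = d ∧ c' = d' ∧ q = p) :
    (fam3 f).Nodup := by
  unfold fam3
  rw [List.nodup_flatMap]
  refine ⟨fun c _ => ?_, ?_⟩
  · rw [List.nodup_flatMap]
    refine ⟨fun c' _ => (nodup_lits n).map fun q p h => (hf _ _ _ _ _ _ h).2.2, ?_⟩
    refine (List.nodup_finRange m).imp ?_
    intro a b hab
    simp only [Function.onFun, List.disjoint_left, List.mem_map, not_exists, not_and]
    rintro v ⟨q, _, rfl⟩ p _ h
    exact hab (hf _ _ _ _ _ _ h).2.1.symm
  · refine (List.nodup_finRange m).imp ?_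
    intro a b hab
    simp only [Function.onFun, List.disjoint_left, List.mem_flatMap, List.mem_map, not_exists,
      not_and]
    rintro v ⟨c', _, q, _, rfl⟩ d' _ p _ h
    exact hab (hf _ _ _ _ _ _ h).1.symm

/-- The rank of a vertex: its block in the list of levels. -/
def rk : Vx n m → ℕ
  | wa _ _ _ => 0
  | wb _ _ _ => 1
  | z2 => 2
  | t _ _ _ => 3
  | mm _ _ _ => 4
  | s _ _ => 5
  | r _ _ => 6
  | z1 => 7
  | ua _ _ => 8
  | ub _ _ => 9

theorem mem_lvs (v : Vx n m) : v ∈ lvs n m := by
  unfold lvs
  simp only [List.mem_append, List.mem_cons]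
  cases v with
  | z1 => tauto
  | z2 => tauto
  | ua c q => have := mem_fam2 ua c q; tauto
  | ub c q => have := mem_fam2 ub c q; tauto
  | s c q => have := mem_fam2 s c q; tauto
  | r c q => have := mem_fam2 r c q; tauto
  | mm c c' q => have := mem_fam3 mm c c' q; tauto
  | t c c' q => have := mem_fam3 t c c' q; tauto
  | wa c c' q => have := mem_fam3 wa c c' q; tauto
  | wb c c' q => have := mem_fam3 wb c c' q; tauto

theorem rk_fam2 {f : Fin m → Lit n → Vx n m} {k : ℕ} (hf : ∀ c q, rk (f c q) = k) {v : Vx n m}
    (h : v ∈ fam2 f) : rk v = k := by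
  obtain ⟨c, q, rfl⟩ := of_mem_fam2 h
  exact hf c q

theorem rk_fam3 {f : Fin m → Fin m → Lit n → Vx n m} {k : ℕ} (hf : ∀ c c' q, rk (f c c' q) = k)
    {v : Vx n m} (h : v ∈ fam3 f) : rk v = k := by
  obtain ⟨c, c', q, rfl⟩ := of_mem_fam3 h
  exact hf c c' q

/-- A list of vertices, whose ranks are at least `k`, without repetitions and sorted by rank. -/
def Blk (k : ℕ) (l : List (Vx n m)) : Prop :=
  (∀ v ∈ l, k ≤ rk v) ∧ l.Nodup ∧ l.Pairwise fun a b => rk a ≤ rk b

theorem Blk.append {k : ℕ} {l l' : List (Vx n m)} (h : l.Nodup) (hk : ∀ v ∈ l, rk v = k)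
    (h' : Blk (k + 1) l') : Blk k (l ++ l') := by
  obtain ⟨h1, h2, h3⟩ := h'
  refine ⟨?_, ?_, ?_⟩
  · intro v hv
    rcases List.mem_append.1 hv with hv | hv
    · exact (hk v hv).ge
    · have := h1 v hv; omega
  · refine List.nodup_append.2 ⟨h, h2, ?_⟩
    intro a ha b hb hab
    have h4 := hk a ha
    have h5 := h1 b hb
    rw [hab] at h4
    omega
  · refine List.pairwise_append.2 ⟨?_, h3, ?_⟩
    · exact h.imp_of_mem fun {a b} ha hb _ => by rw [hk a ha, hk b hb]
    · intro a ha b hb
      have h4 := hk a ha
      have h5 := h1 b hb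
      omega

theorem Blk.cons {k : ℕ} {v : Vx n m} {l : List (Vx n m)} (hk : rk v = k)
    (h : Blk (k + 1) l) : Blk k (v :: l) := by
  have : Blk k ([v] ++ l) := Blk.append (by simp) (by simpa using hk) h
  simpa using this

theorem blk_lvs (n m : ℕ) : Blk 0 (lvs n m) := by
  unfold lvs
  refine Blk.append (nodup_fam3 _ (by simp)) (fun v hv => rk_fam3 (by simp [rk]) hv) ?_
  refine Blk.append (nodup_fam3 _ (by simp)) (fun v hv => rk_fam3 (by simp [rk]) hv) ?_
  refine Blk.cons rfl ?_
  refine Blk.append (nodup_fam3 _ (by simp)) (fun v hv => rk_fam3 (by simp [rk]) hv) ?_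
  refine Blk.append (nodup_fam3 _ (by simp)) (fun v hv => rk_fam3 (by simp [rk]) hv) ?_
  refine Blk.append (nodup_fam2 _ (by simp)) (fun v hv => rk_fam2 (by simp [rk]) hv) ?_
  refine Blk.append (nodup_fam2 _ (by simp)) (fun v hv => rk_fam2 (by simp [rk]) hv) ?_
  refine Blk.cons rfl ?_
  refine Blk.append (nodup_fam2 _ (by simp)) (fun v hv => rk_fam2 (by simp [rk]) hv) ?_
  have h9 : ∀ v ∈ fam2 (n := n) (m := m) ub, rk v = 9 :=
    fun v hv => rk_fam2 (by simp [rk]) hv
  have hn : (fam2 (n := n) (m := m) ub).Nodup := nodup_fam2 _ (by simp)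
  refine ⟨fun v hv => (h9 v hv).ge, hn, ?_⟩
  exact hn.imp_of_mem fun {a b} ha hb _ => by rw [h9 a ha, h9 b hb]

theorem nodup_lvs (n m : ℕ) : (lvs n m).Nodup := (blk_lvs n m).2.1

theorem idxOf_lt_of_rk {l : List (Vx n m)} (h : l.Pairwise fun a b => rk a ≤ rk b) {a b : Vx n m}
    (ha : a ∈ l) (hab : rk a < rk b) : l.idxOf a < l.idxOf b := by
  induction l with
  | nil => simp at ha
  | cons x l ih =>
    rw [List.pairwise_cons] at h
    have hne : a ≠ b := by
      rintro rfl
      exact lt_irrefl _ hab
    by_cases hxa : x = a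
    · subst hxa
      rw [List.idxOf_cons_self, List.idxOf_cons_ne _ hne]
      omega
    · have ha' : a ∈ l := by
        rcases List.mem_cons.1 ha with h' | h'
        · exact absurd h'.symm hxa
        · exact h'
      by_cases hxb : x = b
      · subst hxb
        have := h.1 a ha'
        omega
      · rw [List.idxOf_cons_ne _ hxa, List.idxOf_cons_ne _ hxb]
        have := ih h.2 ha'
        omega

theorem lev_lt {a b : Vx n m} (hab : rk a < rk b) : lev a < lev b :=
  idxOf_lt_of_rk (blk_lvs n m).2.2 (mem_lvs a) hab

variable (cl : Fin m → Finset (Lit n))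

theorem mem_others {c c' : Fin m} : c' ∈ others c ↔ c' ≠ c := by
  simp [others]

theorem nodup_others (c : Fin m) : (others c).Nodup := (List.nodup_finRange m).filter _

theorem mem_dn_of_mem_up {v w : Vx n m} (h : w ∈ up cl v) : v ∈ dn cl w := by
  cases v with
  | z1 => simp [up] at h
  | z2 => simp [up] at h
  | ua c q => simp [up] at h
  | ub c q => simp [up] at h
  | s c q =>
    simp only [up, List.mem_cons, List.not_mem_nil, or_false] at h
    rcases h with rfl | rfl
    · simp [dn]
    · simp [dn, prv_nxt]
  | r c q =>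
    simp only [up] at h
    split_ifs at h with hq
    · simp at h
    · simp only [List.mem_cons, List.not_mem_nil, or_false] at h
      rcases h with rfl | rfl <;> simp [dn, hq]
  | mm c c' q =>
    simp only [up] at h
    split_ifs at h with hq
    · simp at h
    · simp only [List.mem_cons, List.not_mem_nil, or_false] at h
      subst h
      have : c' ∈ others c := mem_others.2 (Ne.symm hq)
      simp [dn, this]
  | t c c' q => simp [up] at h
  | wa c c' q =>
    simp only [up] at h
    split_ifs at h with hq
    · simp at h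
    · simp only [List.mem_cons, List.not_mem_nil, or_false] at h
      have : c' ∈ others c := mem_others.2 (Ne.symm hq)
      rcases h with rfl | rfl
      · simp [dn, Ne.symm hq, neg_neg']
      · simp [dn, this]
  | wb c c' q =>
    simp only [up] at h
    split_ifs at h with hq
    · simp at h
    · simp only [List.mem_cons, List.not_mem_nil, or_false] at h
      have : c' ∈ others c := mem_others.2 (Ne.symm hq)
      rcases h with rfl | rfl | rfl
      · simp [dn, hq]
      · simp [dn, this]
      · simp [dn, hq]

theorem mem_up_of_mem_dn {v w : Vx n m} (h : v ∈ dn cl w) : w ∈ up cl v := by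
  cases w with
  | z1 => simp [dn] at h
  | z2 => simp [dn] at h
  | ua c q =>
    simp only [dn, List.mem_cons, List.mem_append, List.mem_flatMap, List.not_mem_nil,
      or_false] at h
    rcases h with rfl | ⟨c', hc, rfl | rfl⟩ | h
    · simp [up, nxt_prv]
    · simp [up, Ne.symm (mem_others.1 hc)]
    · simp [up, Ne.symm (mem_others.1 hc)]
    · split_ifs at h with hq
      · simp at h
      · simp only [List.mem_cons, List.not_mem_nil, or_false] at h
        subst h
        simp [up, hq]
  | ub c q =>
    simp only [dn, List.mem_cons, List.mem_append, List.mem_map, List.not_mem_nil,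
      or_false] at h
    rcases h with h | ⟨c', hc, rfl⟩ | rfl
    · split_ifs at h with hq
      · simp at h
      · simp only [List.mem_cons, List.not_mem_nil, or_false] at h
        subst h
        simp [up, hq]
    · simp [up, Ne.symm (mem_others.1 hc)]
    · simp [up]
  | s c q => simp [dn] at h
  | r c q => simp [dn] at h
  | mm c c' q =>
    simp only [dn] at h
    split_ifs at h with hq
    · simp at h
    · simp only [List.mem_cons, List.not_mem_nil, or_false] at h
      subst h
      simp [up, hq]
  | t c c' q =>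
    simp only [dn] at h
    split_ifs at h with hq
    · simp at h
    · simp only [List.mem_cons, List.not_mem_nil, or_false] at h
      rcases h with rfl | rfl
      · simp [up, hq]
      · simp [up, Ne.symm hq, neg_neg']
  | wa c c' q => simp [dn] at h
  | wb c c' q => simp [dn] at h

theorem rk_lt_of_mem_up {v w : Vx n m} (h : w ∈ up cl v) : rk v < rk w := by
  cases v with
  | z1 => simp [up] at h
  | z2 => simp [up] at h
  | ua c q => simp [up] at h
  | ub c q => simp [up] at h
  | s c q =>
    simp only [up, List.mem_cons, List.not_mem_nil, or_false] at h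
    rcases h with rfl | rfl <;> simp [rk]
  | r c q =>
    simp only [up] at h
    split_ifs at h with hq
    · simp at h
    · simp only [List.mem_cons, List.not_mem_nil, or_false] at h
      rcases h with rfl | rfl <;> simp [rk]
  | mm c c' q =>
    simp only [up] at h
    split_ifs at h with hq
    · simp at h
    · simp only [List.mem_cons, List.not_mem_nil, or_false] at h
      subst h
      simp [rk]
  | t c c' q => simp [up] at h
  | wa c c' q =>
    simp only [up] at h
    split_ifs at h with hq
    · simp at h
    · simp only [List.mem_cons, List.not_mem_nil, or_false] at h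
      rcases h with rfl | rfl <;> simp [rk]
  | wb c c' q =>
    simp only [up] at h
    split_ifs at h with hq
    · simp at h
    · simp only [List.mem_cons, List.not_mem_nil, or_false] at h
      rcases h with rfl | rfl | rfl <;> simp [rk]

theorem nodup_up (v : Vx n m) : (up cl v).Nodup := by
  cases v with
  | z1 => exact List.nodup_nil
  | z2 => exact List.nodup_nil
  | ua c q => exact List.nodup_nil
  | ub c q => exact List.nodup_nil
  | s c q => simp [up]
  | r c q =>
    simp only [up]
    split_ifs <;> simp
  | mm c c' q =>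
    simp only [up]
    split_ifs <;> simp
  | t c c' q => exact List.nodup_nil
  | wa c c' q =>
    simp only [up]
    split_ifs <;> simp
  | wb c c' q =>
    simp only [up]
    split_ifs <;> simp

theorem nodup_dn (v : Vx n m) : (dn cl v).Nodup := by
  cases v with
  | ua c q =>
    have h1 : ((others c).flatMap (fun c' => [wa c c' q, mm (n := n) c c' q])).Nodup := by
      rw [List.nodup_flatMap]
      refine ⟨fun k _ => by simp, ?_⟩
      refine (nodup_others c).imp ?_
      intro a b hab
      simp [List.disjoint_left, Function.onFun, hab]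
    simp only [dn]
    split_ifs
    · simp [h1]
    · rw [List.nodup_cons, List.nodup_append]
      refine ⟨by simp, h1, by simp, ?_⟩
      intro a ha b hb
      simp only [List.mem_flatMap, List.mem_cons, List.not_mem_nil, or_false] at ha hb
      obtain ⟨c', _, rfl | rfl⟩ := ha <;> simp [hb]
  | ub c q =>
    have h1 : ((others c).map (fun c' => wb (n := n) c c' q)).Nodup :=
      (nodup_others c).map fun a b h => by simpa using h
    have h2 : ((others c).map (fun c' => wb (n := n) c c' q) ++ [s c q]).Nodup := by
      rw [List.nodup_append]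
      refine ⟨h1, by simp, ?_⟩
      intro a ha b hb
      simp only [List.mem_map, List.mem_cons, List.not_mem_nil, or_false] at ha hb
      obtain ⟨c', _, rfl⟩ := ha
      simp [hb]
    simp only [dn]
    split_ifs
    · simpa using h2
    · simp only [List.cons_append, List.nil_append, List.nodup_cons]
      refine ⟨by simp, h2⟩
  | z1 => exact List.nodup_nil
  | z2 => exact List.nodup_nil
  | s c q => exact List.nodup_nil
  | r c q => exact List.nodup_nil
  | mm c c' q =>
    simp only [dn]
    split_ifs <;> simp
  | t c c' q =>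
    simp only [dn]
    split_ifs <;> simp
  | wa c c' q => exact List.nodup_nil
  | wb c c' q => exact List.nodup_nil

omit cl in
theorem isLeveled {n m : ℕ} (cl : Fin m → Finset (Lit n)) :
    IsLeveled (lev (n := n) (m := m)) (lvs n m) (up cl) (dn cl) where
  sorted := by
    rw [List.pairwise_iff_getElem]
    intro i j hi hj hij
    unfold lev
    rw [(nodup_lvs n m).idxOf_getElem, (nodup_lvs n m).idxOf_getElem]
    exact hij
  all := mem_lvs
  up_nodup := nodup_up cl
  dn_nodup := nodup_dn cl
  symm := fun _ _ => ⟨mem_dn_of_mem_up cl, mem_up_of_mem_dn cl⟩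
  mono := fun _ _ h => lev_lt (rk_lt_of_mem_up cl h)

end Pool.MP_b347ba_lc
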