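import Pool.Agent.Lib.MP_b347ba_lc.LevelData

/-!
# General facts about sweeps
-/

namespace Pool.MP_b347ba_lc

variable {V : Type} {up dn : V → List V}

theorem Run.trans {L : List (Strand V)} {vs : List V} {X : List (Strand V × Strand V)}
    {M : List (Strand V)} (h : Run up dn L vs X M) {ws : List V}
    {Y : List (Strand V × Strand V)} {N : List (Strand V)} (h' : Run up dn M ws Y N) :
    Run up dn L (vs ++ ws) (X ++ Y) N := by
  induction h with
  | nil L => simpa using h'
  | swap A B a b vs X L' _ ih => exact Run.swap A B a b _ _ _ (ih h')
  | vert A B v vs X L' _ ih => exact Run.vert A B v _ _ _ (ih h')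

theorem Run.context {L : List (Strand V)} {vs : List V} {X : List (Strand V × Strand V)}
    {M : List (Strand V)} (h : Run up dn L vs X M) (A B : List (Strand V)) :
    Run up dn (A ++ L ++ B) vs X (A ++ M ++ B) := by
  induction h with
  | nil L => exact Run.nil _
  | swap A' B' a b vs X L' _ ih =>
    have h1 := Run.swap (A ++ A') (B' ++ B) a b vs X (A ++ L' ++ B) (up := up) (dn := dn)
      (by simpa [List.append_assoc] using ih)
    simpa [List.append_assoc] using h1
  | vert A' B' v vs X L' _ ih =>
    have h1 := Run.vert (A ++ A') (B' ++ B) v vs X (A ++ L' ++ B) (up := up) (dn := dn)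
      (by simpa [List.append_assoc] using ih)
    simpa [List.append_assoc] using h1

/-- One vertex. -/
theorem Run.one (A B : List (Strand V)) (v : V) :
    Run up dn (A ++ (dn v).map (fun w => (w, v)) ++ B) [v] []
      (A ++ (up v).map (fun w => (v, w)) ++ B) :=
  Run.vert A B v [] [] _ (Run.nil _)

/-- The strands entering an item from below; an item is a passing strand or a vertex. -/
def itD (dn : V → List V) : Strand V ⊕ V → List (Strand V)
  | .inl e => [e]
  | .inr v => (dn v).map fun w => (w, v)

/-- The strands leaving an item. -/
def itU (up : V → List V) : Strand V ⊕ V → List (Strand V)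
  | .inl e => [e]
  | .inr v => (up v).map fun w => (v, w)

/-- The vertices in a list of items. -/
def vts (xs : List (Strand V ⊕ V)) : List V := xs.filterMap Sum.getRight?

@[simp] theorem vts_nil : vts ([] : List (Strand V ⊕ V)) = [] := rfl

@[simp] theorem vts_inl (e : Strand V) (xs : List (Strand V ⊕ V)) :
    vts (.inl e :: xs) = vts xs := rfl

@[simp] theorem vts_inr (v : V) (xs : List (Strand V ⊕ V)) :
    vts (.inr v :: xs) = v :: vts xs := rfl

@[simp] theorem vts_append (xs ys : List (Strand V ⊕ V)) : vts (xs ++ ys) = vts xs ++ vts ys :=
  List.filterMap_append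

@[simp] theorem vts_map_inl (l : List (Strand V)) : vts (l.map .inl) = [] := by
  induction l with
  | nil => rfl
  | cons a l ih => simpa using ih

theorem vts_flatMap {ι : Type} (l : List ι) (f : ι → List (Strand V ⊕ V)) :
    vts (l.flatMap f) = l.flatMap fun i => vts (f i) := by
  induction l with
  | nil => rfl
  | cons a l ih => simp [ih]

theorem mem_vts {xs : List (Strand V ⊕ V)} {v : V} : v ∈ vts xs ↔ Sum.inr v ∈ xs := by
  induction xs with
  | nil => simp
  | cons a l ih =>
    cases a with
    | inl e => simp [ih]
    | inr w => simp [ih]

open Classical in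
/-- The strands of an item when the vertices in `S` have been passed. -/
noncomputable def itS (up dn : V → List V) (S : Set V) : Strand V ⊕ V → List (Strand V)
  | .inl e => [e]
  | .inr v => if v ∈ S then (up v).map (fun w => (v, w)) else (dn v).map fun w => (w, v)

theorem itS_insert {S : Set V} {v w : V} (h : w ≠ v) :
    itS up dn (insert v S) (.inr w) = itS up dn S (.inr w) := by
  have e : (w ∈ insert v S) ↔ w ∈ S := ⟨fun h' => h'.resolve_left h, Or.inr⟩
  by_cases hw : w ∈ S
  · simp only [itS, if_pos hw, if_pos (e.2 hw)]
  · have hw' : w ∉ insert v S := fun h' => hw (e.1 h')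
    simp only [itS, if_neg hw, if_neg hw']

/-- Parallel events: the vertices of a list of items may be passed in any order. -/
theorem run_items (xs : List (Strand V ⊕ V)) (vs : List V) (hnd : vs.Nodup)
    (hxs : (vts xs).Nodup) (h1 : ∀ v ∈ vts xs, v ∈ vs)
    (h2 : ∀ v ∈ vs, v ∈ vts xs ∨ (up v = [] ∧ dn v = [])) :
    Run up dn (xs.flatMap (itD dn)) vs [] (xs.flatMap (itU up)) := by
  simp only [mem_vts] at h1 h2
  have key : ∀ (vs : List V) (S : Set V), vs.Nodup → (∀ v ∈ vs, v ∉ S) →
      (∀ v, Sum.inr v ∈ xs → v ∈ S ∨ v ∈ vs) →
      (∀ v ∈ vs, Sum.inr v ∈ xs ∨ (up v = [] ∧ dn v = [])) →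
      Run up dn (xs.flatMap (itS up dn S)) vs [] (xs.flatMap (itU up)) := by
    intro vs
    induction vs with
    | nil =>
      intro S _ _ h3 _
      have : xs.flatMap (itS up dn S) = xs.flatMap (itU up) := by
        apply List.flatMap_congr
        intro i hi
        cases i with
        | inl e => rfl
        | inr v =>
          have := h3 v hi
          simp only [List.not_mem_nil, or_false] at this
          simp [itS, itU, this]
      rw [this]
      exact Run.nil _
    | cons v vs ih =>
      intro S hnd hS h3 h4
      rw [List.nodup_cons] at hnd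
      have ih' := ih (insert v S) hnd.2
        (by
          intro w hw hwS
          rcases hwS with rfl | hwS
          · exact hnd.1 hw
          · exact hS w (List.mem_cons_of_mem _ hw) hwS)
        (by
          intro w hw
          rcases h3 w hw with h | h
          · exact Or.inl (Or.inr h)
          · rcases List.mem_cons.1 h with rfl | h
            · exact Or.inl (Or.inl rfl)
            · exact Or.inr h)
        (fun w hw => h4 w (List.mem_cons_of_mem _ hw))
      have hvS : v ∉ S := hS v (by simp)
      rcases h4 v (by simp) with hv | ⟨hu, hd⟩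
      · obtain ⟨l₁, l₂, rfl⟩ := List.append_of_mem hv
        rw [vts_append, vts_inr] at hxs
        have hx := List.nodup_append.1 hxs
        have hx1 : ∀ w, Sum.inr w ∈ l₁ → w ≠ v := by
          rintro w hw rfl
          exact hx.2.2 _ (mem_vts.2 hw) _ (by simp) rfl
        have hx2 : ∀ w, Sum.inr w ∈ l₂ → w ≠ v := by
          rintro w hw rfl
          exact (List.nodup_cons.1 hx.2.1).1 (mem_vts.2 hw)
        have e1 : ∀ l : List (Strand V ⊕ V), (∀ w, Sum.inr w ∈ l → w ≠ v) →
            l.flatMap (itS up dn (insert v S)) = l.flatMap (itS up dn S) := by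
          intro l hl
          apply List.flatMap_congr
          intro i hi
          cases i with
          | inl e => rfl
          | inr w =>
            have := hl w hi
            exact itS_insert this
        have e2 : itS up dn S (.inr v) = (dn v).map fun w => (w, v) := by simp [itS, hvS]
        have e3 : itS up dn (insert v S) (.inr v) = (up v).map fun w => (v, w) := by
          simp [itS]
        rw [List.flatMap_append, List.flatMap_cons, e1 l₁ hx1, e1 l₂ hx2, e3] at ih'
        rw [List.flatMap_append, List.flatMap_cons, e2, ← List.append_assoc]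
        apply Run.vert
        rwa [List.append_assoc]
      · have e1 : xs.flatMap (itS up dn (insert v S)) = xs.flatMap (itS up dn S) := by
          apply List.flatMap_congr
          intro i hi
          cases i with
          | inl e => rfl
          | inr w =>
            by_cases hw : w = v
            · subst hw
              simp [itS, hu, hd]
            · exact itS_insert hw
        rw [e1] at ih'
        have h5 := Run.vert (up := up) (dn := dn) [] (xs.flatMap (itS up dn S)) v vs [] _
              (by simpa [hu] using ih')
        simpa [hd] using h5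
  have := key vs ∅ hnd (by simp) (fun v hv => Or.inr (h1 v hv)) h2
  have e : xs.flatMap (itS up dn ∅) = xs.flatMap (itD dn) := by
    apply List.flatMap_congr
    intro i _
    cases i with
    | inl e => rfl
    | inr v => simp [itS, itD]
  rwa [e] at this

/-- Moving a strand to the left. -/
theorem run_move (A B : List (Strand V)) (x : Strand V) :
    Run up dn (A ++ x :: B) [] (A.reverse.map fun a => (a, x)) (x :: (A ++ B)) := by
  induction A using List.reverseRecOn generalizing B with
  | nil => exact Run.nil _
  | append_singleton A a ih =>
    have h := ih (a :: B)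
    have h2 := Run.swap (up := up) (dn := dn) A B a x [] _ _ h
    simpa [List.append_assoc] using h2

/-- Bubble sort. -/
theorem run_perm (L L' : List (Strand V)) (hnd : L.Nodup) (hp : L.Perm L') :
    ∃ C : List (Strand V × Strand V), Run up dn L [] C L' ∧
      (∀ p ∈ C, [p.1, p.2].Sublist L ∧ [p.2, p.1].Sublist L') ∧ C.Nodup := by
  induction L' generalizing L with
  | nil =>
    rw [List.perm_nil] at hp
    subst hp
    exact ⟨[], Run.nil _, by simp, by simp⟩
  | cons x L' ih =>
    have hx : x ∈ L := hp.mem_iff.2 (by simp)
    obtain ⟨A, B, rfl⟩ := List.append_of_mem hx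
    have hp' : (A ++ B).Perm L' := by
      have h1 : (A ++ x :: B).Perm (x :: (A ++ B)) := List.perm_middle
      exact (List.perm_cons x).1 (h1.symm.trans hp)
    have hsub : (A ++ B).Sublist (A ++ x :: B) :=
      (List.Sublist.refl A).append (List.sublist_cons_self x B)
    have hnd' : (A ++ B).Nodup := hnd.sublist hsub
    obtain ⟨C, hC, hC2, hC3⟩ := ih (A ++ B) hnd' hp'
    have hx1 := List.nodup_append.1 hnd
    have hxA : x ∉ A := fun h => hx1.2.2 x h x (by simp) rfl
    have hxB : x ∉ B := (List.nodup_cons.1 hx1.2.1).1
    have hxL : x ∉ L' := fun h => by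
      rcases List.mem_append.1 (hp'.mem_iff.2 h) with h | h
      · exact hxA h
      · exact hxB h
    have hrun : Run up dn (x :: (A ++ B)) [] C (x :: L') := by
      have := hC.context [x] []
      simpa using this
    refine ⟨(A.reverse.map fun a => (a, x)) ++ C, ?_, ?_, ?_⟩
    · have := (run_move (up := up) (dn := dn) A B x).trans hrun
      simpa using this
    · intro p hp
      rcases List.mem_append.1 hp with hp | hp
      · simp only [List.mem_map, List.mem_reverse] at hp
        obtain ⟨a, ha, rfl⟩ := hp
        constructor
        · have h1 : [a].Sublist A := List.singleton_sublist.2 ha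
          have h2 : [x].Sublist (x :: B) := List.singleton_sublist.2 (by simp)
          exact h1.append h2
        · have h1 : a ∈ L' := hp'.mem_iff.1 (List.mem_append_left _ ha)
          exact (List.singleton_sublist.2 h1).cons_cons x
      · obtain ⟨h1, h2⟩ := hC2 p hp
        exact ⟨h1.trans hsub, h2.cons x⟩
    · rw [List.nodup_append]
      refine ⟨?_, hC3, ?_⟩
      · exact (List.nodup_reverse.2 hx1.1).map fun a b h => by simpa using h
      · intro p hp p' hp' hpp
        subst hpp
        simp only [List.mem_map, List.mem_reverse] at hp
        obtain ⟨a, ha, rfl⟩ := hp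
        obtain ⟨h1, h2⟩ := hC2 _ hp'
        exact hxL (h2.subset (by simp))

/-- Independent runs next to each other. -/
theorem run_flatMap {ι : Type} (l : List ι) (f g : ι → List (Strand V))
    (C : ι → List (Strand V × Strand V)) (h : ∀ i ∈ l, Run up dn (f i) [] (C i) (g i)) :
    Run up dn (l.flatMap f) [] (l.flatMap C) (l.flatMap g) := by
  induction l with
  | nil => exact Run.nil _
  | cons i l ih =>
    have h1 := (h i (by simp)).context [] (l.flatMap f)
    have h2 := (ih fun j hj => h j (List.mem_cons_of_mem _ hj)).context (g i) []
    simp only [List.nil_append, List.append_nil] at h1 h2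
    simpa using h1.trans h2

end Pool.MP_b347ba_lc
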