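import Pool.Agent.Lib.MP_b347ba_lc_h79.Cyc
import Pool.Agent.Lib.MP_b347ba_lc_h79.Sweep

/-!
# The phases of the sweep for a satisfiable formula
-/

namespace Pool.MP_b347ba_lc

open Vx

variable {n m : ℕ}

/-- Items. -/
abbrev It (n m : ℕ) : Type := Strand (Vx n m) ⊕ Vx n m

/-- Conflicts. -/
abbrev Kp (n m : ℕ) : Type := Fin m × Fin m × Lit n

/-- All conflicts. -/
def kaps (n m : ℕ) : List (Kp n m) :=
  (List.finRange m).flatMap fun lo =>
    ((List.finRange m).filter fun hi => lo < hi).flatMap fun hi =>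
      (lits n).map fun q => (lo, hi, q)

theorem mem_kaps {κ : Kp n m} : κ ∈ kaps n m ↔ κ.1 < κ.2.1 := by
  obtain ⟨lo, hi, q⟩ := κ
  simp only [kaps, List.mem_flatMap, List.mem_finRange, true_and, List.mem_filter, List.mem_map,
    decide_eq_true_eq, Prod.mk.injEq]
  constructor
  · rintro ⟨lo', hi', h, q', _, rfl, rfl, rfl⟩
    exact h
  · intro h
    exact ⟨lo, hi, h, q, mem_lits q, rfl, rfl, rfl⟩

theorem pairwise_kaps : (kaps n m).Pairwise fun κ κ' =>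
    κ.1 < κ'.1 ∨ (κ.1 = κ'.1 ∧ κ.2.1 < κ'.2.1) ∨
      (κ.1 = κ'.1 ∧ κ.2.1 = κ'.2.1 ∧ κ.2.2 ≠ κ'.2.2) := by
  unfold kaps
  rw [List.pairwise_flatMap]
  refine ⟨fun lo _ => ?_, ?_⟩
  · rw [List.pairwise_flatMap]
    refine ⟨fun hi _ => ?_, ?_⟩
    · rw [List.pairwise_map]
      refine (nodup_lits n).imp ?_
      intro a b hab
      simp [hab]
    · refine ((List.pairwise_lt_finRange m).filter _).imp ?_
      intro a b hab x hx y hy
      simp only [List.mem_map] at hx hy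
      obtain ⟨q, _, rfl⟩ := hx
      obtain ⟨q', _, rfl⟩ := hy
      exact Or.inr (Or.inl ⟨rfl, hab⟩)
  · refine (List.pairwise_lt_finRange m).imp ?_
    intro a b hab x hx y hy
    simp only [List.mem_flatMap, List.mem_map] at hx hy
    obtain ⟨_, _, q, _, rfl⟩ := hx
    obtain ⟨_, _, q', _, rfl⟩ := hy
    exact Or.inl hab

theorem nodup_kaps : (kaps n m).Nodup := by
  refine pairwise_kaps.imp ?_
  rintro a b h rfl
  rcases h with h | h | h
  · exact lt_irrefl _ h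
  · exact lt_irrefl _ h.2
  · exact h.2.2 rfl

variable (ch : Fin m → Lit n)

/-- first phase -/
def X1 (κ : Kp n m) : List (It n m) :=
  if κ.2.2 = ch κ.1 then
    [.inr (wb κ.2.1 κ.1 (neg κ.2.2)), .inr (wa κ.1 κ.2.1 κ.2.2), .inr (wb κ.1 κ.2.1 κ.2.2),
      .inr (wa κ.2.1 κ.1 (neg κ.2.2))]
  else
    [.inr (wb κ.1 κ.2.1 κ.2.2), .inr (wa κ.2.1 κ.1 (neg κ.2.2)),
      .inr (wb κ.2.1 κ.1 (neg κ.2.2)), .inr (wa κ.1 κ.2.1 κ.2.2)]

/-- the edge (wa, ua) -/
def sa (c c' : Fin m) (q : Lit n) : Strand (Vx n m) := (wa c c' q, ua c q)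
/-- the edge (wb, ub) -/
def sb (c c' : Fin m) (q : Lit n) : Strand (Vx n m) := (wb c c' q, ub c q)
/-- the edge (wb, mm) -/
def smu (c c' : Fin m) (q : Lit n) : Strand (Vx n m) := (wb c c' q, mm c c' q)
/-- the edge (mm, ua) -/
def snu (c c' : Fin m) (q : Lit n) : Strand (Vx n m) := (mm c c' q, ua c q)

/-- second phase -/
def X3 (κ : Kp n m) : List (It n m) :=
  if κ.2.2 = ch κ.1 then
    [.inl (smu κ.2.1 κ.1 (neg κ.2.2)), .inl (sb κ.2.1 κ.1 (neg κ.2.2)),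
      .inr (t κ.2.1 κ.1 (neg κ.2.2)), .inl (sa κ.1 κ.2.1 κ.2.2), .inl (smu κ.1 κ.2.1 κ.2.2),
      .inl (sb κ.1 κ.2.1 κ.2.2), .inr (t κ.1 κ.2.1 κ.2.2), .inl (sa κ.2.1 κ.1 (neg κ.2.2))]
  else
    [.inl (smu κ.1 κ.2.1 κ.2.2), .inl (sb κ.1 κ.2.1 κ.2.2), .inr (t κ.1 κ.2.1 κ.2.2),
      .inl (sa κ.2.1 κ.1 (neg κ.2.2)), .inl (smu κ.2.1 κ.1 (neg κ.2.2)),
      .inl (sb κ.2.1 κ.1 (neg κ.2.2)), .inr (t κ.2.1 κ.1 (neg κ.2.2)),
      .inl (sa κ.1 κ.2.1 κ.2.2)]

/-- third phase -/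
def X4 (κ : Kp n m) : List (It n m) :=
  [.inl (sa κ.1 κ.2.1 κ.2.2), .inr (mm κ.1 κ.2.1 κ.2.2), .inl (sb κ.1 κ.2.1 κ.2.2),
    .inl (sa κ.2.1 κ.1 (neg κ.2.2)), .inr (mm κ.2.1 κ.1 (neg κ.2.2)),
    .inl (sb κ.2.1 κ.1 (neg κ.2.2))]

/-- the crossings between the second and the third phase -/
def C1 (κ : Kp n m) : List (Strand (Vx n m) × Strand (Vx n m)) :=
  if κ.2.2 = ch κ.1 then
    [(sb κ.2.1 κ.1 (neg κ.2.2), sa κ.1 κ.2.1 κ.2.2),
      (smu κ.2.1 κ.1 (neg κ.2.2), sa κ.1 κ.2.1 κ.2.2),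
      (sb κ.2.1 κ.1 (neg κ.2.2), smu κ.1 κ.2.1 κ.2.2),
      (smu κ.2.1 κ.1 (neg κ.2.2), smu κ.1 κ.2.1 κ.2.2),
      (sb κ.2.1 κ.1 (neg κ.2.2), sb κ.1 κ.2.1 κ.2.2),
      (smu κ.2.1 κ.1 (neg κ.2.2), sb κ.1 κ.2.1 κ.2.2),
      (sb κ.2.1 κ.1 (neg κ.2.2), sa κ.2.1 κ.1 (neg κ.2.2)),
      (smu κ.2.1 κ.1 (neg κ.2.2), sa κ.2.1 κ.1 (neg κ.2.2))]
  else
    [(sb κ.2.1 κ.1 (neg κ.2.2), sa κ.1 κ.2.1 κ.2.2),
      (smu κ.2.1 κ.1 (neg κ.2.2), sa κ.1 κ.2.1 κ.2.2),
      (sa κ.2.1 κ.1 (neg κ.2.2), sa κ.1 κ.2.1 κ.2.2),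
      (sb κ.1 κ.2.1 κ.2.2, sa κ.1 κ.2.1 κ.2.2),
      (smu κ.1 κ.2.1 κ.2.2, sa κ.1 κ.2.1 κ.2.2)]

variable (cl : Fin m → Finset (Lit n))

theorem x1_D : ((kaps n m).flatMap (X1 ch)).flatMap (itD (dn cl)) = [] := by
  rw [List.flatMap_assoc]
  rw [List.flatMap_eq_nil_iff]
  intro κ _
  unfold X1
  split_ifs <;> simp [itD, dn]

theorem x1_U : ((kaps n m).flatMap (X1 ch)).flatMap (itU (up cl)) =
    ((kaps n m).flatMap (X3 ch)).flatMap (itD (dn cl)) := by
  rw [List.flatMap_assoc, List.flatMap_assoc]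
  apply List.flatMap_congr
  rintro ⟨lo, hi, q⟩ hκ
  have h : lo < hi := mem_kaps.1 hκ
  have h1 : lo ≠ hi := h.ne
  have h2 : hi ≠ lo := h.ne'
  unfold X1 X3
  dsimp only
  split_ifs <;> simp [itD, itU, dn, up, h1, h2, neg_neg', smu, sb, sa]

theorem run_six_a {V : Type} {up dn : V → List V} (a1 mu1 b1 a2 mu2 b2 : Strand V) :
    Run up dn [mu1, b1, a2, mu2, b2, a1] []
      [(b2, a1), (mu2, a1), (a2, a1), (b1, a1), (mu1, a1)] [a1, mu1, b1, a2, mu2, b2] :=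
  Run.swap [mu1, b1, a2, mu2] [] b2 a1 [] _ _ <|
  Run.swap [mu1, b1, a2] [b2] mu2 a1 [] _ _ <|
  Run.swap [mu1, b1] [mu2, b2] a2 a1 [] _ _ <|
  Run.swap [mu1] [a2, mu2, b2] b1 a1 [] _ _ <|
  Run.swap [] [b1, a2, mu2, b2] mu1 a1 [] _ _ <| Run.nil _

theorem run_six_b {V : Type} {up dn : V → List V} (a1 mu1 b1 a2 mu2 b2 : Strand V) :
    Run up dn [mu2, b2, a1, mu1, b1, a2] []
      [(b2, a1), (mu2, a1), (b2, mu1), (mu2, mu1), (b2, b1), (mu2, b1), (b2, a2), (mu2, a2)]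
      [a1, mu1, b1, a2, mu2, b2] :=
  Run.swap [mu2] [mu1, b1, a2] b2 a1 [] _ _ <|
  Run.swap [] [b2, mu1, b1, a2] mu2 a1 [] _ _ <|
  Run.swap [a1, mu2] [b1, a2] b2 mu1 [] _ _ <|
  Run.swap [a1] [b2, b1, a2] mu2 mu1 [] _ _ <|
  Run.swap [a1, mu1, mu2] [a2] b2 b1 [] _ _ <|
  Run.swap [a1, mu1] [b2, a2] mu2 b1 [] _ _ <|
  Run.swap [a1, mu1, b1, mu2] [] b2 a2 [] _ _ <|
  Run.swap [a1, mu1, b1] [b2] mu2 a2 [] _ _ <| Run.nil _

theorem run_c1 {κ : Kp n m} (hκ : κ ∈ kaps n m) :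
    Run (up cl) (dn cl) ((X3 ch κ).flatMap (itU (up cl))) [] (C1 ch κ)
      ((X4 κ).flatMap (itD (dn cl))) := by
  obtain ⟨lo, hi, q⟩ := κ
  have h : lo < hi := mem_kaps.1 hκ
  have h1 : lo ≠ hi := h.ne
  have h2 : hi ≠ lo := h.ne'
  have e4 : (X4 (lo, hi, q)).flatMap (itD (dn cl)) =
      [sa lo hi q, smu lo hi q, sb lo hi q, sa hi lo (neg q), smu hi lo (neg q),
        sb hi lo (neg q)] := by
    simp [X4, itD, dn, h1, h2, smu]
  rw [e4]
  unfold X3 C1
  dsimp only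
  split_ifs
  · have e : ([.inl (smu hi lo (neg q)), .inl (sb hi lo (neg q)), .inr (t hi lo (neg q)),
        .inl (sa lo hi q), .inl (smu lo hi q), .inl (sb lo hi q), .inr (t lo hi q),
        .inl (sa hi lo (neg q))] : List (It n m)).flatMap (itU (up cl)) =
        [smu hi lo (neg q), sb hi lo (neg q), sa lo hi q, smu lo hi q, sb lo hi q,
          sa hi lo (neg q)] := by
      simp [itU, up]
    rw [e]
    exact run_six_b _ _ _ _ _ _
  · have e : ([.inl (smu lo hi q), .inl (sb lo hi q), .inr (t lo hi q),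
        .inl (sa hi lo (neg q)), .inl (smu hi lo (neg q)), .inl (sb hi lo (neg q)),
        .inr (t hi lo (neg q)), .inl (sa lo hi q)] : List (It n m)).flatMap (itU (up cl)) =
        [smu lo hi q, sb lo hi q, sa hi lo (neg q), smu hi lo (neg q), sb hi lo (neg q),
          sa lo hi q] := by
      simp [itU, up]
    rw [e]
    exact run_six_a _ _ _ _ _ _

/-- the strands after the third phase -/
def M4 (κ : Kp n m) : List (Strand (Vx n m)) :=
  [sa κ.1 κ.2.1 κ.2.2, snu κ.1 κ.2.1 κ.2.2, sb κ.1 κ.2.1 κ.2.2,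
    sa κ.2.1 κ.1 (neg κ.2.2), snu κ.2.1 κ.1 (neg κ.2.2), sb κ.2.1 κ.1 (neg κ.2.2)]

theorem x4_U : ((kaps n m).flatMap X4).flatMap (itU (up cl)) = (kaps n m).flatMap M4 := by
  rw [List.flatMap_assoc]
  apply List.flatMap_congr
  rintro ⟨lo, hi, q⟩ hκ
  have h : lo < hi := mem_kaps.1 hκ
  have h1 : lo ≠ hi := h.ne
  have h2 : hi ≠ lo := h.ne'
  simp [X4, M4, itU, up, h1, h2, snu]

/-- the strands going to `ub c q` -/
def ubw (c : Fin m) (q : Lit n) : List (Strand (Vx n m)) := (others c).map fun c' => sb c c' q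

/-- the strands going to `ua c q` -/
def uaw (c : Fin m) (q : Lit n) : List (Strand (Vx n m)) :=
  (others c).flatMap fun c' => [sa c c' q, snu c c' q]

/-- the strands before the fourth phase, clause `c` -/
def T5 (c : Fin m) : List (Strand (Vx n m)) :=
  (cyc (ch c)).flatMap fun q => ubw c q ++ uaw c (nxt q)

/-- fourth phase, clause `c` -/
def X5 (c : Fin m) : List (It n m) :=
  (cyc (ch c)).flatMap fun q => (ubw c q).map .inl ++ .inr (s c q) ::
    ((uaw c (nxt q)).map .inl ++ [.inr (r c (nxt q))])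

/-- fifth phase, clause `c` -/
def X6 (c : Fin m) : List (It n m) :=
  (cyc (ch c)).flatMap fun q => [.inr (ub c q), .inr (ua c (nxt q))]

theorem flatMap_inl_D {V : Type} (dn : V → List V) (l : List (Strand V)) :
    (l.map Sum.inl).flatMap (itD dn) = l := by
  induction l with
  | nil => rfl
  | cons a l ih => simp [itD, ih]

theorem flatMap_inl_U {V : Type} (up : V → List V) (l : List (Strand V)) :
    (l.map Sum.inl).flatMap (itU up) = l := by
  induction l with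
  | nil => rfl
  | cons a l ih => simp [itU, ih]

theorem x5_D : ((List.finRange m).flatMap (X5 ch)).flatMap (itD (dn cl)) =
    (List.finRange m).flatMap (T5 ch) := by
  rw [List.flatMap_assoc]
  apply List.flatMap_congr
  intro c _
  unfold X5 T5
  rw [List.flatMap_assoc]
  apply List.flatMap_congr
  intro q _
  simp only [List.flatMap_append, List.flatMap_cons, flatMap_inl_D, List.flatMap_nil]
  simp [itD, dn]

theorem x6_U : ((List.finRange m).flatMap (X6 ch)).flatMap (itU (up cl)) = [] := by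
  rw [List.flatMap_assoc, List.flatMap_eq_nil_iff]
  intro c _
  unfold X6
  rw [List.flatMap_assoc, List.flatMap_eq_nil_iff]
  intro q _
  simp [itU, up]

/-- the strand from `r c q` to `ua c q`, if any -/
def rA (c : Fin m) (q : Lit n) : List (Strand (Vx n m)) :=
  if q ∈ cl c then [] else [(r c q, ua c q)]

/-- the strand from `r c q` to `ub c q`, if any -/
def rB (c : Fin m) (q : Lit n) : List (Strand (Vx n m)) :=
  if q ∈ cl c then [] else [(r c q, ub c q)]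

/-- the middle part of a block -/
def Fq (c : Fin m) (q : Lit n) : List (Strand (Vx n m)) :=
  ubw c q ++ ((s c q, ub c q) :: (s c q, ua c (nxt q)) :: uaw c (nxt q))

theorem itD_ub (c : Fin m) (q : Lit n) : itD (dn cl) (.inr (ub c q)) =
    rB cl c q ++ (ubw c q ++ [(s c q, ub c q)]) := by
  unfold rB ubw
  simp only [itD, dn]
  split_ifs <;> simp [sb]

theorem itD_ua (c : Fin m) (q : Lit n) : itD (dn cl) (.inr (ua c q)) =
    (s c (prv q), ua c q) :: (uaw c q ++ rA cl c q) := by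
  unfold rA uaw
  simp only [itD, dn]
  split_ifs <;> simp [sa, snu, List.map_flatMap]

theorem itU_r (c : Fin m) (q : Lit n) : itU (up cl) (.inr (r c q)) =
    rA cl c q ++ rB cl c q := by
  unfold rA rB
  simp only [itU, up]
  split_ifs <;> simp

theorem x5_U (hch : ∀ c, ch c ∈ cl c) :
    ((List.finRange m).flatMap (X5 ch)).flatMap (itU (up cl)) =
      ((List.finRange m).flatMap (X6 ch)).flatMap (itD (dn cl)) := by
  rw [List.flatMap_assoc, List.flatMap_assoc]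
  apply List.flatMap_congr
  intro c _
  unfold X5 X6
  rw [List.flatMap_assoc, List.flatMap_assoc]
  have h1 := cyc_shift (Fq c) (rA cl c) (rB cl c) (2 * n) (ch c)
  have h2 : rB cl c (ch c) = [] := by simp [rB, hch c]
  rw [iter_full, h2] at h1
  simp only [List.nil_append, List.append_nil] at h1
  have e1 : (cyc (ch c)).flatMap (fun q => (((ubw c q).map .inl ++ .inr (s c q) ::
      ((uaw c (nxt q)).map .inl ++ [.inr (r c (nxt q))]) : List (It n m))).flatMap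
        (itU (up cl))) =
      (List.iterate nxt (ch c) (2 * n)).flatMap
        (fun q => Fq c q ++ (rA cl c (nxt q) ++ rB cl c (nxt q))) := by
    apply List.flatMap_congr
    intro q _
    simp only [List.flatMap_append, List.flatMap_cons, flatMap_inl_U, List.flatMap_nil, itU_r]
    simp [itU, up, Fq]
  have e2 : (cyc (ch c)).flatMap (fun q =>
      ([.inr (ub c q), .inr (ua c (nxt q))] : List (It n m)).flatMap (itD (dn cl))) =
      (List.iterate nxt (ch c) (2 * n)).flatMap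
        (fun q => rB cl c q ++ (Fq c q ++ rA cl c (nxt q))) := by
    apply List.flatMap_congr
    intro q _
    simp only [List.flatMap_cons, List.flatMap_nil, itD_ub, itD_ua, prv_nxt]
    simp [Fq]
  rw [e1, e2, h1]

end Pool.MP_b347ba_lc
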