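import Pool.Agent.Lib.MP_b347ba_lc_h79.Leveled

/-!
# From the combinatorial data of a drawing to a satisfying assignment
-/

namespace Pool.MP_b347ba_lc

open Vx

variable {n m : ℕ}

theorem sub_pair {α : Type} {a b : α} {l₁ l₂ : List α} (h₁ : a ∈ l₁) (h₂ : b ∈ l₂) :
    [a, b].Sublist (l₁ ++ l₂) := by
  have : [a, b] = [a] ++ [b] := rfl
  rw [this]
  exact (List.singleton_sublist.2 h₁).append (List.singleton_sublist.2 h₂)

variable (cl : Fin m → Finset (Lit n))

/-- position of the edge (s (prv q), ua q) at the level of `z1` -/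
noncomputable def posA (D : LevelData lev (up cl) (dn cl)) (c : Fin m) (q : Lit n) : ℝ :=
  D.τ z1 (s c (prv q), ua c q)

/-- position of the edge (s q, ub q) at the level of `z1` -/
noncomputable def posB (D : LevelData lev (up cl) (dn cl)) (c : Fin m) (q : Lit n) : ℝ :=
  D.τ z1 (s c q, ub c q)

theorem posB_lt (D : LevelData lev (up cl) (dn cl)) (c : Fin m) (q : Lit n) :
    posB cl D c q < posA cl D c (nxt q) := by
  unfold posA posB
  rw [prv_nxt]
  exact D.bot z1 (s c q) (ub c q) (ua c (nxt q)) (by simp [up]) (lev_lt (by simp [rk]))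
    (lev_lt (by simp [rk])) (lev_lt (by simp [rk]))

theorem posA_lt (D : LevelData lev (up cl) (dn cl)) (c : Fin m) (q : Lit n) (hq : q ∉ cl c) :
    posA cl D c q < posB cl D c q := by
  have h1 : D.τ z1 (s c (prv q), ua c q) < D.τ z1 (r c q, ua c q) := by
    refine D.top z1 (ua c q) (s c (prv q)) (r c q) ?_ (lev_lt (by simp [rk]))
      (lev_lt (by simp [rk])) (lev_lt (by simp [rk]))
    simp only [dn, if_neg hq]
    exact sub_pair (l₁ := [s c (prv q)]) (by simp) (by simp)
  have h2 : D.τ z1 (r c q, ua c q) < D.τ z1 (r c q, ub c q) :=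
    D.bot z1 (r c q) (ua c q) (ub c q) (by simp [up, hq]) (lev_lt (by simp [rk]))
      (lev_lt (by simp [rk])) (lev_lt (by simp [rk]))
  have h3 : D.τ z1 (r c q, ub c q) < D.τ z1 (s c q, ub c q) := by
    refine D.top z1 (ub c q) (r c q) (s c q) ?_ (lev_lt (by simp [rk]))
      (lev_lt (by simp [rk])) (lev_lt (by simp [rk]))
    simp only [dn, if_neg hq]
    exact sub_pair (by simp) (by simp)
  unfold posA posB
  linarith

/-- Some literal of every clause is chosen. -/
theorem exists_chosen (hn : 0 < n) (D : LevelData lev (up cl) (dn cl)) (c : Fin m) :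
    ∃ q ∈ cl c, posB cl D c q ≤ posA cl D c q := by
  by_contra hcon
  push Not at hcon
  have hlt : ∀ q, posA cl D c q < posB cl D c q := by
    intro q
    by_cases hq : q ∈ cl c
    · exact hcon q hq
    · exact posA_lt cl D c q hq
  have : Nonempty (Lit n) := ⟨(⟨0, hn⟩, false)⟩
  obtain ⟨q, hq⟩ := Finite.exists_max (posA cl D c)
  have h1 := hlt q
  have h2 := posB_lt cl D c q
  have h3 := hq (nxt q)
  linarith

/-- The wires of a chosen literal are in the wrong order at the level of `z1`. -/
theorem wires_top (D : LevelData lev (up cl) (dn cl)) {c c' : Fin m} (hc : c ≠ c') {q : Lit n}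
    (hq : posB cl D c q ≤ posA cl D c q) :
    D.τ z1 (wb c c' q, ub c q) < D.τ z1 (wa c c' q, ua c q) := by
  have hm : c' ∈ others c := mem_others.2 (Ne.symm hc)
  have h1 : D.τ z1 (s c (prv q), ua c q) < D.τ z1 (wa c c' q, ua c q) := by
    refine D.top z1 (ua c q) (s c (prv q)) (wa c c' q) ?_ (lev_lt (by simp [rk]))
      (lev_lt (by simp [rk])) (lev_lt (by simp [rk]))
    simp only [dn]
    exact sub_pair (l₁ := [s c (prv q)]) (by simp) (by simp [hm])
  have h2 : D.τ z1 (wb c c' q, ub c q) < D.τ z1 (s c q, ub c q) := by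
    refine D.top z1 (ub c q) (wb c c' q) (s c q) ?_ (lev_lt (by simp [rk]))
      (lev_lt (by simp [rk])) (lev_lt (by simp [rk]))
    simp only [dn]
    rw [← List.append_assoc]
    exact sub_pair (by simp [hm]) (by simp)
  unfold posA posB at hq
  linarith

theorem wires_mid (D : LevelData lev (up cl) (dn cl)) {c c' : Fin m} (hc : c ≠ c') (q : Lit n) :
    D.τ (mm c c' q) (wa c c' q, ua c q) < D.τ (mm c c' q) (wb c c' q, ub c q) := by
  have hm : c' ∈ others c := mem_others.2 (Ne.symm hc)
  have h1 : D.τ (mm c c' q) (wa c c' q, ua c q) < 0 := by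
    refine D.top_left (ua c q) (wa c c' q) (mm c c' q) ?_ (lev_lt (by simp [rk]))
    simp only [dn]
    refine (List.Sublist.trans ?_ (List.sublist_append_left _ _)).cons _
    have h2 : [wa c c' q, mm c c' q].Sublist
        ((others c).flatMap fun c' => [wa c c' q, mm c c' q]) := by
      obtain ⟨l₁, l₂, hl⟩ := List.append_of_mem hm
      rw [hl]
      simp only [List.flatMap_append, List.flatMap_cons]
      exact (List.sublist_append_left _ _).trans (List.sublist_append_right _ _)
    exact h2
  have h2 : 0 < D.τ (mm c c' q) (wb c c' q, ub c q) := by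
    refine D.bot_right (wb c c' q) (ub c q) (mm c c' q) ?_ (lev_lt (by simp [rk]))
    simp only [up, if_neg hc]
    exact (List.sublist_append_left [mm c c' q, ub c q] [t c c' q])
  linarith

theorem wires_cross (D : LevelData lev (up cl) (dn cl)) {c c' : Fin m} (hc : c ≠ c')
    (q : Lit n) :
    D.τ z2 (wb c c' q, ub c q) < D.τ z2 (wa c' c (neg q), ua c' (neg q)) := by
  have h1 : D.τ z2 (wb c c' q, ub c q) < D.τ z2 (wb c c' q, t c c' q) := by
    refine D.bot z2 (wb c c' q) (ub c q) (t c c' q) ?_ (lev_lt (by simp [rk]))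
      (lev_lt (by simp [rk])) (lev_lt (by simp [rk]))
    simp [up, hc]
  have h2 : D.τ z2 (wb c c' q, t c c' q) < D.τ z2 (wa c' c (neg q), t c c' q) := by
    refine D.top z2 (t c c' q) (wb c c' q) (wa c' c (neg q)) ?_ (lev_lt (by simp [rk]))
      (lev_lt (by simp [rk])) (lev_lt (by simp [rk]))
    simp [dn, hc]
  have h3 : D.τ z2 (wa c' c (neg q), t c c' q) < D.τ z2 (wa c' c (neg q), ua c' (neg q)) := by
    refine D.bot z2 (wa c' c (neg q)) (t c c' q) (ua c' (neg q)) ?_ (lev_lt (by simp [rk]))
      (lev_lt (by simp [rk])) (lev_lt (by simp [rk]))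
    simp [up, Ne.symm hc, neg_neg']
  linarith

/-- One of two conflicting pairs of wires is in the wrong order at the level of `z2`. -/
theorem wires_bot (D : LevelData lev (up cl) (dn cl)) {c c' : Fin m} (hc : c ≠ c')
    (q : Lit n) :
    D.τ z2 (wb c c' q, ub c q) < D.τ z2 (wa c c' q, ua c q) ∨
      D.τ z2 (wb c' c (neg q), ub c' (neg q)) < D.τ z2 (wa c' c (neg q), ua c' (neg q)) := by
  by_contra hcon
  push Not at hcon
  obtain ⟨h1, h2⟩ := hcon
  have h3 := wires_cross cl D hc q
  have h4 := wires_cross cl D (Ne.symm hc) (neg q)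
  rw [neg_neg'] at h4
  linarith

theorem wires_false (D : LevelData lev (up cl) (dn cl)) {c c' : Fin m} (hc : c ≠ c') {q : Lit n}
    (hq : posB cl D c q ≤ posA cl D c q)
    (h : D.τ z2 (wb c c' q, ub c q) < D.τ z2 (wa c c' q, ua c q)) : False := by
  refine D.once (wb c c' q) (ub c q) (wa c c' q) (ua c q) z1 (mm c c' q) z2 ?_ ?_ ?_ ?_
    (lev_lt (by simp [rk])) (lev_lt (by simp [rk])) (lev_lt (by simp [rk]))
    (lev_lt (by simp [rk])) (lev_lt (by simp [rk])) (lev_lt (by simp [rk]))
    (wires_top cl D hc hq) (wires_mid cl D hc q) h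
  · simp [up, hc]
  · simp [up, hc]
  · simp
  · simp

omit cl in
theorem sat_of_levelData {n m : ℕ} (hn : 0 < n) (cl : Fin m → Finset (Lit n))
    (D : LevelData (lev (n := n) (m := m)) (up cl) (dn cl)) : Sat cl := by
  choose ch hch hle using exists_chosen cl hn D
  have hcons : ∀ c c', ch c' ≠ neg (ch c) := by
    intro c c' h
    have hc : c ≠ c' := by
      rintro rfl
      have : (ch c).2 = !(ch c).2 := by
        conv_lhs => rw [h]
        rfl
      revert this
      cases (ch c).2 <;> simp
    rcases wires_bot cl D hc (ch c) with h1 | h1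
    · exact wires_false cl D hc (hle c) h1
    · refine wires_false cl D (Ne.symm hc) (q := neg (ch c)) ?_ ?_
      · rw [← h]; exact hle c'
      · exact h1
  refine ⟨fun k => decide (∃ c, ch c = (k, true)), fun c => ⟨ch c, hch c, ?_⟩⟩
  by_cases hb : (ch c).2 = true
  · rw [hb]
    rw [decide_eq_true_iff]
    exact ⟨c, by rw [← hb]⟩
  · have hb' : (ch c).2 = false := by simpa using hb
    rw [hb', decide_eq_false_iff_not]
    rintro ⟨c', hc'⟩
    apply hcons c c'
    rw [hc']
    simp [neg, hb']

end Pool.MP_b347ba_lc
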