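import Pool.Agent.Lib.MP_b347ba_lc_h79.Vts

/-!
# The sweep for a satisfiable formula
-/

namespace Pool.MP_b347ba_lc

open Vx

variable {n m : ℕ} (ch : Fin m → Lit n) (cl : Fin m → Finset (Lit n))

/-- the clause of a vertex -/
def vc : Vx n m → ℕ
  | wa c _ _ => c
  | wb c _ _ => c
  | mm c _ _ => c
  | _ => 0

/-- the partner clause of a vertex -/
def vd : Vx n m → ℕ
  | wa _ c' _ => c'
  | wb _ c' _ => c'
  | mm _ c' _ => c'
  | _ => 0

/-- the literal number of a vertex -/
def vq : Vx n m → ℕ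
  | wa _ _ q => qn q
  | wb _ _ q => qn q
  | mm _ _ q => qn q
  | _ => 0

/-- the literal number of the conflict of a vertex -/
def vk : Vx n m → ℕ
  | wa c c' q => if c < c' then qn q else qn (neg q)
  | wb c c' q => if c < c' then qn q else qn (neg q)
  | mm c c' q => if c < c' then qn q else qn (neg q)
  | _ => 0

/-- the type of a vertex -/
def vt : Vx n m → ℕ
  | wa _ _ _ => 0
  | mm _ _ _ => 1
  | wb _ _ _ => 2
  | _ => 3

/-- the order of the strands after the third phase -/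
def RL (x y : Strand (Vx n m)) : Prop :=
  min (vc x.1) (vd x.1) < min (vc y.1) (vd y.1) ∨
  (min (vc x.1) (vd x.1) = min (vc y.1) (vd y.1) ∧
    (max (vc x.1) (vd x.1) < max (vc y.1) (vd y.1) ∨
      (max (vc x.1) (vd x.1) = max (vc y.1) (vd y.1) ∧
        (vk x.1 ≠ vk y.1 ∨
          (vk x.1 = vk y.1 ∧
            (vc x.1 < vc y.1 ∨ (vc x.1 = vc y.1 ∧ vt x.1 < vt y.1)))))))

/-- the block of a strand in the order before the fourth phase -/
def vb : Vx n m → ℕ
  | wa c _ q => 2 * ix (ch c) (prv q) + 1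
  | mm c _ q => 2 * ix (ch c) (prv q) + 1
  | wb c _ q => 2 * ix (ch c) q
  | _ => 0

/-- the order of the strands before the fourth phase -/
def RT (x y : Strand (Vx n m)) : Prop :=
  vc x.1 < vc y.1 ∨ (vc x.1 = vc y.1 ∧ (vb ch x.1 < vb ch y.1 ∨ (vb ch x.1 = vb ch y.1 ∧
    (vd x.1 < vd y.1 ∨ (vd x.1 = vd y.1 ∧ vt x.1 < vt y.1)))))

theorem pairwise_L : ((kaps n m).flatMap M4).Pairwise RL := by
  rw [List.pairwise_flatMap]
  constructor
  · rintro ⟨lo, hi, q⟩ hκ
    have h : lo < hi := mem_kaps.1 hκ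
    have h3 : ¬ hi < lo := not_lt_of_gt h
    have h' : lo.val < hi.val := h
    have e1 : min lo.val hi.val = lo.val := min_eq_left h'.le
    have e2 : min hi.val lo.val = lo.val := min_eq_right h'.le
    have e3 : max lo.val hi.val = hi.val := max_eq_right h'.le
    have e4 : max hi.val lo.val = hi.val := max_eq_left h'.le
    simp [M4, RL, sa, sb, snu, vc, vd, vk, vt, h, h3, e1, e2, e3, e4, neg_neg']
  · refine (pairwise_kaps (n := n) (m := m)).imp_of_mem ?_
    rintro ⟨lo, hi, q⟩ ⟨lo', hi', q'⟩ hκ hκ' hR x hx y hy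
    have h : lo < hi := mem_kaps.1 hκ
    have h' : lo' < hi' := mem_kaps.1 hκ'
    have hx1 : min (vc x.1) (vd x.1) = lo.val ∧ max (vc x.1) (vd x.1) = hi.val ∧
        vk x.1 = qn q := by
      have h3 : ¬ hi < lo := not_lt_of_gt h
      have h' : lo.val < hi.val := h
      have e1 : min lo.val hi.val = lo.val := min_eq_left h'.le
      have e2 : min hi.val lo.val = lo.val := min_eq_right h'.le
      have e3 : max lo.val hi.val = hi.val := max_eq_right h'.le
      have e4 : max hi.val lo.val = hi.val := max_eq_left h'.le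
      simp only [M4, List.mem_cons, List.not_mem_nil, or_false] at hx
      rcases hx with rfl | rfl | rfl | rfl | rfl | rfl <;>
        simp [sa, sb, snu, vc, vd, vk, h, h3, e1, e2, e3, e4, neg_neg']
    have hy1 : min (vc y.1) (vd y.1) = lo'.val ∧ max (vc y.1) (vd y.1) = hi'.val ∧
        vk y.1 = qn q' := by
      have h3 : ¬ hi' < lo' := not_lt_of_gt h'
      have h4 : lo'.val < hi'.val := h'
      have e1 : min lo'.val hi'.val = lo'.val := min_eq_left h4.le
      have e2 : min hi'.val lo'.val = lo'.val := min_eq_right h4.le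
      have e3 : max lo'.val hi'.val = hi'.val := max_eq_right h4.le
      have e4 : max hi'.val lo'.val = hi'.val := max_eq_left h4.le
      simp only [M4, List.mem_cons, List.not_mem_nil, or_false] at hy
      rcases hy with rfl | rfl | rfl | rfl | rfl | rfl <;>
        simp [sa, sb, snu, vc, vd, vk, h', h3, e1, e2, e3, e4, neg_neg']
    unfold RL
    rw [hx1.1, hx1.2.1, hx1.2.2, hy1.1, hy1.2.1, hy1.2.2]
    dsimp only at hR
    rcases hR with hR | ⟨rfl, hR⟩ | ⟨rfl, rfl, hR⟩
    · exact Or.inl hR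
    · exact Or.inr ⟨rfl, Or.inl hR⟩
    · refine Or.inr ⟨rfl, Or.inr ⟨rfl, Or.inl ?_⟩⟩
      intro hq
      exact hR (qn_inj hq)

/-- the strands after the third phase -/
theorem form_of_mem_L {x : Strand (Vx n m)} (hx : x ∈ (kaps n m).flatMap M4) :
    ∃ c c' q, c ≠ c' ∧ (x = sa c c' q ∨ x = snu c c' q ∨ x = sb c c' q) := by
  simp only [List.mem_flatMap] at hx
  obtain ⟨⟨lo, hi, q⟩, hκ, hx⟩ := hx
  have h : lo < hi := mem_kaps.1 hκ
  simp only [M4, List.mem_cons, List.not_mem_nil, or_false] at hx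
  rcases hx with rfl | rfl | rfl | rfl | rfl | rfl
  · exact ⟨lo, hi, q, h.ne, Or.inl rfl⟩
  · exact ⟨lo, hi, q, h.ne, Or.inr (Or.inl rfl)⟩
  · exact ⟨lo, hi, q, h.ne, Or.inr (Or.inr rfl)⟩
  · exact ⟨hi, lo, neg q, h.ne', Or.inl rfl⟩
  · exact ⟨hi, lo, neg q, h.ne', Or.inr (Or.inl rfl)⟩
  · exact ⟨hi, lo, neg q, h.ne', Or.inr (Or.inr rfl)⟩

theorem mem_L {c c' : Fin m} {q : Lit n} (h : c ≠ c') {x : Strand (Vx n m)}
    (hx : x = sa c c' q ∨ x = snu c c' q ∨ x = sb c c' q) : x ∈ (kaps n m).flatMap M4 := by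
  simp only [List.mem_flatMap]
  rcases lt_or_gt_of_ne h with h | h
  · refine ⟨(c, c', q), mem_kaps.2 h, ?_⟩
    rcases hx with rfl | rfl | rfl <;> simp [M4]
  · refine ⟨(c', c, neg q), mem_kaps.2 h, ?_⟩
    rcases hx with rfl | rfl | rfl <;> simp [M4, neg_neg']

theorem mem_T {x : Strand (Vx n m)} : x ∈ (List.finRange m).flatMap (T5 ch) ↔
    ∃ c c' q, c ≠ c' ∧ (x = sa c c' q ∨ x = snu c c' q ∨ x = sb c c' q) := by
  simp only [List.mem_flatMap, List.mem_finRange, true_and, T5, List.mem_append, ubw, uaw,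
    List.mem_map, mem_others, List.mem_cons, List.not_mem_nil, or_false]
  constructor
  · rintro ⟨c, q, _, ⟨c', hc, rfl⟩ | ⟨c', hc, rfl | rfl⟩⟩
    · exact ⟨c, c', q, hc.symm, by simp⟩
    · exact ⟨c, c', nxt q, hc.symm, by simp⟩
    · exact ⟨c, c', nxt q, hc.symm, by simp⟩
  · rintro ⟨c, c', q, hc, rfl | rfl | rfl⟩
    · exact ⟨c, prv q, mem_cyc _ _, Or.inr ⟨c', hc.symm, by rw [nxt_prv]; exact Or.inl rfl⟩⟩
    · exact ⟨c, prv q, mem_cyc _ _, Or.inr ⟨c', hc.symm, by rw [nxt_prv]; exact Or.inr rfl⟩⟩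
    · exact ⟨c, q, mem_cyc _ _, Or.inl ⟨c', hc.symm, rfl⟩⟩

theorem pairwise_others (c : Fin m) : (others c).Pairwise (· < ·) :=
  (List.pairwise_lt_finRange m).filter _

theorem pairwise_T : ((List.finRange m).flatMap (T5 ch)).Pairwise (RT ch) := by
  rw [List.pairwise_flatMap]
  constructor
  · intro c _
    unfold T5
    rw [List.pairwise_flatMap]
    constructor
    · intro q _
      rw [List.pairwise_append]
      refine ⟨?_, ?_, ?_⟩
      · unfold ubw
        rw [List.pairwise_map]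
        refine (pairwise_others c).imp ?_
        intro a b hab
        have hab' : a.val < b.val := hab
        simp [RT, sb, vc, vd, vb, hab']
      · unfold uaw
        rw [List.pairwise_flatMap]
        refine ⟨fun c' _ => by simp [RT, sa, snu, vc, vd, vb, vt], ?_⟩
        refine (pairwise_others c).imp ?_
        intro a b hab x hx y hy
        have hab' : a.val < b.val := hab
        simp only [List.mem_cons, List.not_mem_nil, or_false] at hx hy
        rcases hx with rfl | rfl <;> rcases hy with rfl | rfl <;>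
          simp [RT, sa, snu, vc, vd, vb, hab']
      · intro x hx y hy
        simp only [ubw, uaw, List.mem_map, List.mem_flatMap, List.mem_cons, List.not_mem_nil,
          or_false] at hx hy
        obtain ⟨a, _, rfl⟩ := hx
        obtain ⟨b, _, rfl | rfl⟩ := hy <;> simp [RT, sa, sb, snu, vc, vb, prv_nxt]
    · refine (pairwise_cyc (ch c)).imp ?_
      intro q q' hq x hx y hy
      simp only [ubw, uaw, List.mem_append, List.mem_map, List.mem_flatMap, List.mem_cons,
        List.not_mem_nil, or_false] at hx hy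
      have hx1 : vc x.1 = c.val ∧ vb ch x.1 ≤ 2 * ix (ch c) q + 1 := by
        rcases hx with ⟨a, _, rfl⟩ | ⟨a, _, rfl | rfl⟩ <;>
          simp [sa, sb, snu, vc, vb, prv_nxt]
      have hy1 : vc y.1 = c.val ∧ 2 * ix (ch c) q' ≤ vb ch y.1 := by
        rcases hy with ⟨a, _, rfl⟩ | ⟨a, _, rfl | rfl⟩ <;>
          simp [sa, sb, snu, vc, vb, prv_nxt]
      unfold RT
      omega
  · refine (List.pairwise_lt_finRange m).imp ?_
    intro a b hab x hx y hy
    have hab' : a.val < b.val := hab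
    simp only [T5, ubw, uaw, List.mem_append, List.mem_map, List.mem_flatMap, List.mem_cons,
      List.not_mem_nil, or_false] at hx hy
    have hx1 : vc x.1 = a.val := by
      obtain ⟨q, _, ⟨d, _, rfl⟩ | ⟨d, _, rfl | rfl⟩⟩ := hx <;> simp [sa, sb, snu, vc]
    have hy1 : vc y.1 = b.val := by
      obtain ⟨q, _, ⟨d, _, rfl⟩ | ⟨d, _, rfl | rfl⟩⟩ := hy <;> simp [sa, sb, snu, vc]
    unfold RT
    omega

theorem nodup_L : ((kaps n m).flatMap M4 : List (Strand (Vx n m))).Nodup := by
  refine pairwise_L.imp ?_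
  rintro x y h rfl
  unfold RL at h
  omega

theorem nodup_T : ((List.finRange m).flatMap (T5 ch)).Nodup := by
  refine (pairwise_T ch).imp ?_
  rintro x y h rfl
  unfold RT at h
  omega

theorem perm_LT : ((kaps n m).flatMap M4).Perm ((List.finRange m).flatMap (T5 ch)) := by
  refine (List.perm_ext_iff_of_nodup nodup_L (nodup_T ch)).2 fun x => ?_
  rw [mem_T]
  exact ⟨form_of_mem_L, fun ⟨c, c', q, h, hx⟩ => mem_L h hx⟩

theorem RL_irrefl (x : Strand (Vx n m)) : ¬ RL x x := by
  unfold RL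
  omega

theorem inv_block {x y : Strand (Vx n m)} (h1 : vc x.1 = vc y.1) (h2 : vb ch x.1 = vb ch y.1)
    (h3 : vd x.1 = vd y.1 → vk x.1 = vk y.1) (hL : RL x y) (hT : RT ch y x) : False := by
  unfold RL at hL
  unfold RT at hT
  by_cases h : vd x.1 = vd y.1
  · have := h3 h
    omega
  · omega

/-- Inverted strands are not adjacent. -/
theorem inv_indep {x y : Strand (Vx n m)} (hx : x ∈ (kaps n m).flatMap M4)
    (hy : y ∈ (kaps n m).flatMap M4) (hL : RL x y) (hT : RT ch y x) :
    x.1 ≠ y.1 ∧ x.1 ≠ y.2 ∧ x.2 ≠ y.1 ∧ x.2 ≠ y.2 := by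
  obtain ⟨c, c', q, hc, hx⟩ := form_of_mem_L hx
  obtain ⟨d, d', p, hd, hy⟩ := form_of_mem_L hy
  refine ⟨?_, ?_, ?_, ?_⟩
  · intro h
    have : x = y := by
      rcases hx with rfl | rfl | rfl <;> rcases hy with rfl | rfl | rfl <;>
        simp [sa, sb, snu] at h ⊢ <;> obtain ⟨rfl, rfl, rfl⟩ := h <;> simp
    rw [this] at hL
    exact RL_irrefl _ hL
  · rcases hx with rfl | rfl | rfl <;> rcases hy with rfl | rfl | rfl <;> simp [sa, sb, snu]
  · rcases hx with rfl | rfl | rfl <;> rcases hy with rfl | rfl | rfl <;> simp [sa, sb, snu]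
  · intro h
    have h4 : c = d ∧ q = p := by
      rcases hx with rfl | rfl | rfl <;> rcases hy with rfl | rfl | rfl <;>
        simp [sa, sb, snu] at h <;> exact h
    obtain ⟨rfl, rfl⟩ := h4
    refine inv_block ch ?_ ?_ ?_ hL hT
    · rcases hx with rfl | rfl | rfl <;> rcases hy with rfl | rfl | rfl <;>
        simp [sa, sb, snu, vc] at h ⊢
    · rcases hx with rfl | rfl | rfl <;> rcases hy with rfl | rfl | rfl <;>
        simp [sa, sb, snu, vb] at h ⊢
    · have h5 : vd x.1 = vd y.1 → c' = d' := by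
        rcases hx with rfl | rfl | rfl <;> rcases hy with rfl | rfl | rfl <;>
          simp only [sa, sb, snu, vd] <;> exact fun h => Fin.ext h
      intro h6
      have h7 := h5 h6
      subst h7
      rcases hx with rfl | rfl | rfl <;> rcases hy with rfl | rfl | rfl <;>
        simp [sa, sb, snu, vk]

/-- The strands crossing between the second and the third phase are not inverted later. -/
theorem c1_inv (hcons : ∀ c c', ch c' ≠ neg (ch c)) {κ : Kp n m} (hκ : κ ∈ kaps n m)
    {p : Strand (Vx n m) × Strand (Vx n m)} (hp : p ∈ C1 ch κ) :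
    (∃ c c' q, p.1 = smu c c' q ∨ p.2 = smu c c' q) ∨ (¬ RL p.1 p.2 ∧ ¬ RT ch p.1 p.2) := by
  obtain ⟨lo, hi, q⟩ := κ
  have h : lo < hi := mem_kaps.1 hκ
  have h3 : ¬ hi < lo := not_lt_of_gt h
  have h' : lo.val < hi.val := h
  have e1 : min lo.val hi.val = lo.val := min_eq_left h'.le
  have e2 : min hi.val lo.val = lo.val := min_eq_right h'.le
  have e3 : max lo.val hi.val = hi.val := max_eq_right h'.le
  have e4 : max hi.val lo.val = hi.val := max_eq_left h'.le
  unfold C1 at hp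
  dsimp only at hp
  have A : ∀ u v : Strand (Vx n m), vc u.1 = hi → vd u.1 = lo → vc v.1 = lo → vd v.1 = hi →
      vk u.1 = vk v.1 → ¬ RL u v ∧ ¬ RT ch u v := by
    intro u v h1 h2 h3 h4 h5
    unfold RL RT
    rw [h1, h2, h3, h4, h5, e1, e2, e3, e4]
    omega
  split_ifs at hp with hq
  · simp only [List.mem_cons, List.not_mem_nil, or_false] at hp
    rcases hp with rfl | rfl | rfl | rfl | rfl | rfl | rfl | rfl
    · right
      apply A <;> simp [sa, sb, vc, vd, vk, h, h3, neg_neg']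
    · exact Or.inl ⟨_, _, _, Or.inl rfl⟩
    · exact Or.inl ⟨_, _, _, Or.inr rfl⟩
    · exact Or.inl ⟨_, _, _, Or.inl rfl⟩
    · right
      apply A <;> simp [sb, vc, vd, vk, h, h3, neg_neg']
    · exact Or.inl ⟨_, _, _, Or.inl rfl⟩
    · right
      have hne : neg q ≠ ch hi := by
        rw [hq]
        exact (hcons lo hi).symm
      have h5 := ix_prv hne
      simp only [RL, RT, sa, sb, vc, vd, vk, vb, vt]
      omega
    · exact Or.inl ⟨_, _, _, Or.inl rfl⟩
  · simp only [List.mem_cons, List.not_mem_nil, or_false] at hp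
    rcases hp with rfl | rfl | rfl | rfl | rfl
    · right
      apply A <;> simp [sa, sb, vc, vd, vk, h, h3, neg_neg']
    · exact Or.inl ⟨_, _, _, Or.inl rfl⟩
    · right
      apply A <;> simp [sa, vc, vd, vk, h, h3, neg_neg']
    · right
      have h5 := ix_prv hq
      simp only [RL, RT, sa, sb, vc, vd, vk, vb, vt]
      omega
    · exact Or.inl ⟨_, _, _, Or.inl rfl⟩

/-- the conflict of a crossing -/
theorem c1_key {κ : Kp n m} (hκ : κ ∈ kaps n m)
    {p : Strand (Vx n m) × Strand (Vx n m)} (hp : p ∈ C1 ch κ) :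
    (min (vc p.1.1) (vd p.1.1) = κ.1.val ∧ max (vc p.1.1) (vd p.1.1) = κ.2.1.val ∧
      vk p.1.1 = qn κ.2.2) ∧
    (min (vc p.2.1) (vd p.2.1) = κ.1.val ∧ max (vc p.2.1) (vd p.2.1) = κ.2.1.val ∧
      vk p.2.1 = qn κ.2.2) := by
  obtain ⟨lo, hi, q⟩ := κ
  have h : lo < hi := mem_kaps.1 hκ
  have h3 : ¬ hi < lo := not_lt_of_gt h
  have h' : lo.val < hi.val := h
  have e1 : min lo.val hi.val = lo.val := min_eq_left h'.le
  have e2 : min hi.val lo.val = lo.val := min_eq_right h'.le
  have e3 : max lo.val hi.val = hi.val := max_eq_right h'.le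
  have e4 : max hi.val lo.val = hi.val := max_eq_left h'.le
  unfold C1 at hp
  dsimp only at hp
  split_ifs at hp with hq
  · simp only [List.mem_cons, List.not_mem_nil, or_false] at hp
    rcases hp with rfl | rfl | rfl | rfl | rfl | rfl | rfl | rfl <;>
      simp [sa, sb, smu, vc, vd, vk, h, h3, e1, e2, e3, e4, neg_neg']
  · simp only [List.mem_cons, List.not_mem_nil, or_false] at hp
    rcases hp with rfl | rfl | rfl | rfl | rfl <;>
      simp [sa, sb, smu, vc, vd, vk, h, h3, e1, e2, e3, e4, neg_neg']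

theorem c1_indep {κ : Kp n m} (hκ : κ ∈ kaps n m)
    {p : Strand (Vx n m) × Strand (Vx n m)} (hp : p ∈ C1 ch κ) :
    p.1.1 ≠ p.2.1 ∧ p.1.1 ≠ p.2.2 ∧ p.1.2 ≠ p.2.1 ∧ p.1.2 ≠ p.2.2 := by
  obtain ⟨lo, hi, q⟩ := κ
  have h : lo < hi := mem_kaps.1 hκ
  have h1 : lo ≠ hi := h.ne
  have h2 : hi ≠ lo := h.ne'
  unfold C1 at hp
  dsimp only at hp
  split_ifs at hp with hq
  · simp only [List.mem_cons, List.not_mem_nil, or_false] at hp
    rcases hp with rfl | rfl | rfl | rfl | rfl | rfl | rfl | rfl <;>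
      simp [sa, sb, smu, h1, h2]
  · simp only [List.mem_cons, List.not_mem_nil, or_false] at hp
    rcases hp with rfl | rfl | rfl | rfl | rfl <;> simp [sa, sb, smu, h1, h2]

theorem c1_once : ((kaps n m).flatMap (C1 ch)).Pairwise fun p p' => p' ≠ p ∧ p' ≠ p.swap := by
  rw [List.pairwise_flatMap]
  constructor
  · rintro ⟨lo, hi, q⟩ hκ
    have h : lo < hi := mem_kaps.1 hκ
    have h1 : lo ≠ hi := h.ne
    have h2 : hi ≠ lo := h.ne'
    unfold C1
    dsimp only
    split_ifs <;> simp [sa, sb, smu, h1, h2]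
  · refine (nodup_kaps (n := n) (m := m)).imp_of_mem ?_
    intro κ κ' hκ hκ' hne p hp p' hp'
    have h1 := c1_key ch hκ hp
    have h2 := c1_key ch hκ' hp'
    have key : ∀ {a b : Kp n m}, a.1.val = b.1.val → a.2.1.val = b.2.1.val →
        qn a.2.2 = qn b.2.2 → a = b := by
      rintro ⟨a1, a2, a3⟩ ⟨b1, b2, b3⟩ h1 h2 h3
      simp only at h1 h2 h3
      rw [Fin.ext h1, Fin.ext h2, qn_inj h3]
    constructor
    · rintro rfl
      exact hne (key (h1.1.1.symm.trans h2.1.1) (h1.1.2.1.symm.trans h2.1.2.1)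
        (h1.1.2.2.symm.trans h2.1.2.2))
    · rintro rfl
      simp only [Prod.fst_swap] at h2
      exact hne (key (h1.2.1.symm.trans h2.1.1) (h1.2.2.1.symm.trans h2.1.2.1)
        (h1.2.2.2.symm.trans h2.1.2.2))

theorem not_smu {x : Strand (Vx n m)} (hx : x ∈ (kaps n m).flatMap M4) (c c' : Fin m)
    (q : Lit n) : x ≠ smu c c' q := by
  obtain ⟨d, d', p, hd, hx⟩ := form_of_mem_L hx
  rcases hx with rfl | rfl | rfl <;> simp [sa, sb, snu, smu]

theorem exists_sweep (hch : ∀ c, ch c ∈ cl c) (hcons : ∀ c c', ch c' ≠ neg (ch c)) :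
    ∃ C, Run (up cl) (dn cl) [] (lvs n m) C [] ∧ GoodX C := by
  obtain ⟨C2, hrun, hC2, hnd⟩ := run_perm (up := up cl) (dn := dn cl) _ _ nodup_L (perm_LT ch)
  have hR : ∀ p ∈ C2, p.1 ∈ (kaps n m).flatMap M4 ∧ p.2 ∈ (kaps n m).flatMap M4 ∧
      RL p.1 p.2 ∧ RT ch p.2 p.1 := by
    intro p hp
    obtain ⟨h1, h2⟩ := hC2 p hp
    refine ⟨h1.subset (by simp), h1.subset (by simp), ?_, ?_⟩
    · have := pairwise_L.sublist h1
      simpa using this
    · have := (pairwise_T ch).sublist h2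
      simpa using this
  have hr1 := run_flatMap (up := up cl) (dn := dn cl) (kaps n m)
    (fun κ => (X3 ch κ).flatMap (itU (up cl))) (fun κ => (X4 κ).flatMap (itD (dn cl)))
    (C1 ch) (fun κ hκ => run_c1 ch cl hκ)
  have hrun' := (run1 ch cl).trans ((run3 ch cl).trans (hr1.trans ((run4 cl).trans
    (hrun.trans ((run5 ch cl hch).trans (run6 ch cl))))))
  refine ⟨(kaps n m).flatMap (C1 ch) ++ C2, ?_, ?_, ?_⟩
  · rw [lvs_eq]
    simpa using hrun'
  · intro p hp
    rcases List.mem_append.1 hp with hp | hp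
    · obtain ⟨κ, hκ, hp⟩ := List.mem_flatMap.1 hp
      exact c1_indep ch hκ hp
    · obtain ⟨h1, h2, h3, h4⟩ := hR p hp
      exact inv_indep ch h1 h2 h3 h4
  · rw [List.pairwise_append]
    refine ⟨c1_once ch, ?_, ?_⟩
    · refine hnd.imp_of_mem ?_
      intro p p' hp hp' hne
      refine ⟨hne.symm, ?_⟩
      rintro rfl
      obtain ⟨h1, -⟩ := hC2 _ hp
      obtain ⟨h2, -⟩ := hC2 _ hp'
      simp only [Prod.fst_swap, Prod.snd_swap] at h2
      obtain ⟨-, -, h3, h4⟩ := hR _ hp
      obtain ⟨-, -, h5, h6⟩ := hR _ hp'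
      simp only [Prod.fst_swap, Prod.snd_swap] at h6
      unfold RT at h4 h6
      omega
    · intro p hp p' hp'
      obtain ⟨κ, hκ, hp⟩ := List.mem_flatMap.1 hp
      obtain ⟨h1, h2, h3, h4⟩ := hR p' hp'
      have h5 := c1_inv ch hcons hκ hp
      constructor
      · rintro rfl
        rcases h5 with ⟨c, c', q, h5 | h5⟩ | h5
        · exact not_smu h1 _ _ _ h5
        · exact not_smu h2 _ _ _ h5
        · exact h5.1 h3
      · rintro rfl
        simp only [Prod.fst_swap, Prod.snd_swap] at h1 h2 h3 h4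
        rcases h5 with ⟨c, c', q, h5 | h5⟩ | h5
        · exact not_smu h2 _ _ _ h5
        · exact not_smu h1 _ _ _ h5
        · exact h5.2 h4

omit ch cl in
/-- M4b: the sweep for a satisfiable formula -/
theorem sat_run {n m : ℕ} (cl : Fin m → Finset (Lit n)) (h : Sat cl) :
    ∃ C, Run (up cl) (dn cl) [] (lvs n m) C [] ∧ GoodX C := by
  obtain ⟨α, hα⟩ := h
  choose ch hch hch2 using hα
  refine exists_sweep ch cl hch ?_
  intro c c' h
  have h1 := hch2 c
  have h2 := hch2 c'
  rw [h] at h2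
  simp only [neg] at h2
  rw [h1] at h2
  revert h2
  cases (ch c).2 <;> simp

end Pool.MP_b347ba_lc
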