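import Pool.Agent.Lib.MP_b347ba_lc_h79.Phases

/-!
# The vertices of the phases
-/

namespace Pool.MP_b347ba_lc

open Vx

variable {n m : ℕ} (ch : Fin m → Lit n) (cl : Fin m → Finset (Lit n))

theorem neg_inj {q q' : Lit n} : neg q = neg q' ↔ q = q' :=
  ⟨fun h => by rw [← neg_neg' q, h, neg_neg'], fun h => by rw [h]⟩

theorem neg_eq_iff {q q' : Lit n} : neg q = q' ↔ q = neg q' :=
  ⟨fun h => by rw [← h, neg_neg'], fun h => by rw [h, neg_neg']⟩

/-- A list built from the conflicts. -/
theorem nodup_kaps_flatMap {α : Type} (f : Kp n m → List α) (h1 : ∀ κ ∈ kaps n m, (f κ).Nodup)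
    (h2 : ∀ κ ∈ kaps n m, ∀ κ' ∈ kaps n m, ∀ x, x ∈ f κ → x ∈ f κ' → κ = κ') :
    ((kaps n m).flatMap f).Nodup := by
  rw [List.nodup_flatMap]
  refine ⟨h1, ?_⟩
  refine (nodup_kaps (n := n) (m := m)).imp_of_mem ?_
  intro a b ha hb hab
  rw [Function.onFun, List.disjoint_left]
  intro x hx hx'
  exact hab (h2 a ha b hb x hx hx')

theorem vts_X1 : vts ((kaps n m).flatMap (X1 ch)) = (kaps n m).flatMap fun κ =>
    if κ.2.2 = ch κ.1 then
      [wb κ.2.1 κ.1 (neg κ.2.2), wa κ.1 κ.2.1 κ.2.2, wb κ.1 κ.2.1 κ.2.2,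
        wa κ.2.1 κ.1 (neg κ.2.2)]
    else [wb κ.1 κ.2.1 κ.2.2, wa κ.2.1 κ.1 (neg κ.2.2), wb κ.2.1 κ.1 (neg κ.2.2),
        wa κ.1 κ.2.1 κ.2.2] := by
  rw [vts_flatMap]
  apply List.flatMap_congr
  intro κ _
  unfold X1
  split_ifs <;> simp

theorem vts_X3 : vts ((kaps n m).flatMap (X3 ch)) = (kaps n m).flatMap fun κ =>
    if κ.2.2 = ch κ.1 then [t κ.2.1 κ.1 (neg κ.2.2), t κ.1 κ.2.1 κ.2.2]
    else [t κ.1 κ.2.1 κ.2.2, t κ.2.1 κ.1 (neg κ.2.2)] := by
  rw [vts_flatMap]
  apply List.flatMap_congr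
  intro κ _
  unfold X3
  split_ifs <;> simp

theorem vts_X4 : vts ((kaps n m).flatMap X4) = (kaps n m).flatMap fun κ =>
    [mm κ.1 κ.2.1 κ.2.2, mm κ.2.1 κ.1 (neg κ.2.2)] := by
  rw [vts_flatMap]
  apply List.flatMap_congr
  intro κ _
  simp [X4]

theorem vts_X5 : vts ((List.finRange m).flatMap (X5 ch)) =
    (List.finRange m).flatMap fun c => (cyc (ch c)).flatMap fun q => [s c q, r c (nxt q)] := by
  rw [vts_flatMap]
  apply List.flatMap_congr
  intro c _
  unfold X5
  rw [vts_flatMap]
  apply List.flatMap_congr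
  intro q _
  simp

theorem vts_X6 : vts ((List.finRange m).flatMap (X6 ch)) =
    (List.finRange m).flatMap fun c => (cyc (ch c)).flatMap fun q =>
      [ub c q, ua c (nxt q)] := by
  rw [vts_flatMap]
  apply List.flatMap_congr
  intro c _
  unfold X6
  rw [vts_flatMap]
  apply List.flatMap_congr
  intro q _
  simp

theorem nodup_vts_X1 : (vts ((kaps n m).flatMap (X1 ch))).Nodup := by
  rw [vts_X1]
  apply nodup_kaps_flatMap
  · rintro ⟨lo, hi, q⟩ hκ
    have h : lo < hi := mem_kaps.1 hκ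
    have h1 : lo ≠ hi := h.ne
    have h2 : hi ≠ lo := h.ne'
    dsimp only
    split_ifs <;> simp [h1, h2]
  · rintro ⟨lo, hi, q⟩ hκ ⟨lo', hi', q'⟩ hκ' x hx hx'
    have h : lo < hi := mem_kaps.1 hκ
    have h' : lo' < hi' := mem_kaps.1 hκ'
    dsimp only at hx hx'
    have e1 : x = wa lo hi q ∨ x = wa hi lo (neg q) ∨ x = wb lo hi q ∨ x = wb hi lo (neg q) := by
      split_ifs at hx <;> simp at hx <;> tauto
    have e2 : x = wa lo' hi' q' ∨ x = wa hi' lo' (neg q') ∨ x = wb lo' hi' q' ∨
        x = wb hi' lo' (neg q') := by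
      split_ifs at hx' <;> simp at hx' <;> tauto
    clear hx hx'
    rcases e1 with rfl | rfl | rfl | rfl <;> simp at e2 <;>
      (try rcases e2 with e2 | e2) <;> obtain ⟨rfl, rfl, e3⟩ := e2 <;>
      first
        | (exact absurd h (not_lt_of_gt h'))
        | (subst e3; rfl)
        | (rw [neg_inj] at e3; subst e3; rfl)

theorem nodup_vts_X3 : (vts ((kaps n m).flatMap (X3 ch))).Nodup := by
  rw [vts_X3]
  apply nodup_kaps_flatMap
  · rintro ⟨lo, hi, q⟩ hκ
    have h : lo < hi := mem_kaps.1 hκ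
    have h1 : lo ≠ hi := h.ne
    have h2 : hi ≠ lo := h.ne'
    dsimp only
    split_ifs <;> simp [h1, h2]
  · rintro ⟨lo, hi, q⟩ hκ ⟨lo', hi', q'⟩ hκ' x hx hx'
    have h : lo < hi := mem_kaps.1 hκ
    have h' : lo' < hi' := mem_kaps.1 hκ'
    dsimp only at hx hx'
    have e1 : x = t lo hi q ∨ x = t hi lo (neg q) := by
      split_ifs at hx <;> simp at hx <;> tauto
    have e2 : x = t lo' hi' q' ∨ x = t hi' lo' (neg q') := by
      split_ifs at hx' <;> simp at hx' <;> tauto
    clear hx hx'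
    rcases e1 with rfl | rfl <;> simp at e2 <;>
      (try rcases e2 with e2 | e2) <;> obtain ⟨rfl, rfl, e3⟩ := e2 <;>
      first
        | (exact absurd h (not_lt_of_gt h'))
        | (subst e3; rfl)
        | (rw [neg_inj] at e3; subst e3; rfl)

theorem nodup_vts_X4 : (vts ((kaps n m).flatMap X4)).Nodup := by
  rw [vts_X4]
  apply nodup_kaps_flatMap
  · rintro ⟨lo, hi, q⟩ hκ
    have h : lo < hi := mem_kaps.1 hκ
    have h1 : lo ≠ hi := h.ne
    have h2 : hi ≠ lo := h.ne'
    simp [h1, h2]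
  · rintro ⟨lo, hi, q⟩ hκ ⟨lo', hi', q'⟩ hκ' x hx hx'
    have h : lo < hi := mem_kaps.1 hκ
    have h' : lo' < hi' := mem_kaps.1 hκ'
    have e1 : x = mm lo hi q ∨ x = mm hi lo (neg q) := by simpa using hx
    have e2 : x = mm lo' hi' q' ∨ x = mm hi' lo' (neg q') := by simpa using hx'
    clear hx hx'
    rcases e1 with rfl | rfl <;> simp at e2 <;>
      (try rcases e2 with e2 | e2) <;> obtain ⟨rfl, rfl, e3⟩ := e2 <;>
      first
        | (exact absurd h (not_lt_of_gt h'))
        | (subst e3; rfl)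
        | (rw [neg_inj] at e3; subst e3; rfl)

theorem nxt_inj {q q' : Lit n} : nxt q = nxt q' ↔ q = q' :=
  ⟨fun h => by rw [← prv_nxt q, h, prv_nxt], fun h => by rw [h]⟩

theorem nodup_vts_X5 : (vts ((List.finRange m).flatMap (X5 ch))).Nodup := by
  rw [vts_X5, List.nodup_flatMap]
  refine ⟨fun c _ => ?_, ?_⟩
  · rw [List.nodup_flatMap]
    refine ⟨fun q _ => by simp, ?_⟩
    refine (nodup_cyc (ch c)).imp ?_
    intro a b hab
    simp [Function.onFun, Ne.symm hab, nxt_inj]
  · refine (List.nodup_finRange m).imp ?_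
    intro a b hab
    rw [Function.onFun, List.disjoint_left]
    intro x hx hx'
    simp only [List.mem_flatMap, List.mem_cons, List.not_mem_nil, or_false] at hx hx'
    obtain ⟨q, _, rfl | rfl⟩ := hx <;> obtain ⟨q', _, h | h⟩ := hx' <;> simp at h <;>
      exact hab h.1

theorem nodup_vts_X6 : (vts ((List.finRange m).flatMap (X6 ch))).Nodup := by
  rw [vts_X6, List.nodup_flatMap]
  refine ⟨fun c _ => ?_, ?_⟩
  · rw [List.nodup_flatMap]
    refine ⟨fun q _ => by simp, ?_⟩
    refine (nodup_cyc (ch c)).imp ?_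
    intro a b hab
    simp [Function.onFun, Ne.symm hab, nxt_inj]
  · refine (List.nodup_finRange m).imp ?_
    intro a b hab
    rw [Function.onFun, List.disjoint_left]
    intro x hx hx'
    simp only [List.mem_flatMap, List.mem_cons, List.not_mem_nil, or_false] at hx hx'
    obtain ⟨q, _, rfl | rfl⟩ := hx <;> obtain ⟨q', _, h | h⟩ := hx' <;> simp at h <;>
      exact hab h.1

theorem mem_vts_X1 {c c' : Fin m} (h : c ≠ c') (q : Lit n) :
    wa c c' q ∈ vts ((kaps n m).flatMap (X1 ch)) ∧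
      wb c c' q ∈ vts ((kaps n m).flatMap (X1 ch)) := by
  rw [vts_X1]
  simp only [List.mem_flatMap]
  rcases lt_or_gt_of_ne h with h | h
  · constructor <;> refine ⟨(c, c', q), mem_kaps.2 h, ?_⟩ <;> dsimp only <;> split_ifs <;> simp
  · constructor <;> refine ⟨(c', c, neg q), mem_kaps.2 h, ?_⟩ <;> dsimp only <;>
      split_ifs <;> simp [neg_neg']

theorem mem_vts_X3 {c c' : Fin m} (h : c ≠ c') (q : Lit n) :
    t c c' q ∈ vts ((kaps n m).flatMap (X3 ch)) := by
  rw [vts_X3]
  simp only [List.mem_flatMap]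
  rcases lt_or_gt_of_ne h with h | h
  · refine ⟨(c, c', q), mem_kaps.2 h, ?_⟩
    dsimp only
    split_ifs <;> simp
  · refine ⟨(c', c, neg q), mem_kaps.2 h, ?_⟩
    dsimp only
    split_ifs <;> simp [neg_neg']

theorem mem_vts_X4 {c c' : Fin m} (h : c ≠ c') (q : Lit n) :
    mm c c' q ∈ vts ((kaps n m).flatMap X4) := by
  rw [vts_X4]
  simp only [List.mem_flatMap]
  rcases lt_or_gt_of_ne h with h | h
  · exact ⟨(c, c', q), mem_kaps.2 h, by simp⟩
  · exact ⟨(c', c, neg q), mem_kaps.2 h, by simp [neg_neg']⟩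

theorem mem_vts_X5 (c : Fin m) (q : Lit n) :
    s c q ∈ vts ((List.finRange m).flatMap (X5 ch)) ∧
      r c q ∈ vts ((List.finRange m).flatMap (X5 ch)) := by
  rw [vts_X5]
  simp only [List.mem_flatMap]
  exact ⟨⟨c, List.mem_finRange c, q, mem_cyc _ _, by simp⟩,
    ⟨c, List.mem_finRange c, prv q, mem_cyc _ _, by simp [nxt_prv]⟩⟩

theorem mem_vts_X6 (c : Fin m) (q : Lit n) :
    ub c q ∈ vts ((List.finRange m).flatMap (X6 ch)) ∧
      ua c q ∈ vts ((List.finRange m).flatMap (X6 ch)) := by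
  rw [vts_X6]
  simp only [List.mem_flatMap]
  exact ⟨⟨c, List.mem_finRange c, q, mem_cyc _ _, by simp⟩,
    ⟨c, List.mem_finRange c, prv q, mem_cyc _ _, by simp [nxt_prv]⟩⟩

/-- the vertices of the first phase -/
def v1 (n m : ℕ) : List (Vx n m) := fam3 wa ++ (fam3 wb ++ [z2])
/-- the vertices of the second phase -/
def v3 (n m : ℕ) : List (Vx n m) := fam3 t
/-- the vertices of the third phase -/
def v4 (n m : ℕ) : List (Vx n m) := fam3 mm
/-- the vertices of the fourth phase -/
def v5 (n m : ℕ) : List (Vx n m) := fam2 s ++ (fam2 r ++ [z1])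
/-- the vertices of the fifth phase -/
def v6 (n m : ℕ) : List (Vx n m) := fam2 ua ++ fam2 ub

theorem lvs_eq : lvs n m = v1 n m ++ (v3 n m ++ (v4 n m ++ (v5 n m ++ v6 n m))) := by
  simp [lvs, v1, v3, v4, v5, v6]

theorem nodup_v1 : (v1 n m).Nodup := by
  have := nodup_lvs n m
  rw [lvs_eq] at this
  exact (List.nodup_append.1 this).1

theorem nodup_v3 : (v3 n m).Nodup := by
  have := nodup_lvs n m
  rw [lvs_eq] at this
  exact (List.nodup_append.1 (List.nodup_append.1 this).2.1).1

theorem nodup_v4 : (v4 n m).Nodup := by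
  have := nodup_lvs n m
  rw [lvs_eq] at this
  exact (List.nodup_append.1 (List.nodup_append.1 (List.nodup_append.1 this).2.1).2.1).1

theorem nodup_v5 : (v5 n m).Nodup := by
  have := nodup_lvs n m
  rw [lvs_eq] at this
  exact (List.nodup_append.1 (List.nodup_append.1 (List.nodup_append.1
    (List.nodup_append.1 this).2.1).2.1).2.1).1

theorem nodup_v6 : (v6 n m).Nodup := by
  have := nodup_lvs n m
  rw [lvs_eq] at this
  exact (List.nodup_append.1 (List.nodup_append.1 (List.nodup_append.1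
    (List.nodup_append.1 this).2.1).2.1).2.1).2.1

theorem run1 : Run (up cl) (dn cl) [] (v1 n m) []
    (((kaps n m).flatMap (X3 ch)).flatMap (itD (dn cl))) := by
  have := run_items (up := up cl) (dn := dn cl) ((kaps n m).flatMap (X1 ch)) (v1 n m) nodup_v1
    (nodup_vts_X1 ch)
    (by
      intro v hv
      rw [vts_X1] at hv
      simp only [List.mem_flatMap] at hv
      obtain ⟨⟨lo, hi, q⟩, _, hx⟩ := hv
      dsimp only at hx
      have e1 : v = wa lo hi q ∨ v = wa hi lo (neg q) ∨ v = wb lo hi q ∨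
          v = wb hi lo (neg q) := by
        split_ifs at hx <;> simp at hx <;> tauto
      unfold v1
      simp only [List.mem_append]
      rcases e1 with rfl | rfl | rfl | rfl
      · exact Or.inl (mem_fam3 _ _ _ _)
      · exact Or.inl (mem_fam3 _ _ _ _)
      · exact Or.inr (Or.inl (mem_fam3 _ _ _ _))
      · exact Or.inr (Or.inl (mem_fam3 _ _ _ _)))
    (by
      intro v hv
      unfold v1 at hv
      simp only [List.mem_append, List.mem_singleton] at hv
      rcases hv with hv | hv | rfl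
      · obtain ⟨c, c', q, rfl⟩ := of_mem_fam3 hv
        by_cases hc : c = c'
        · exact Or.inr (by simp [up, dn, hc])
        · exact Or.inl (mem_vts_X1 ch hc q).1
      · obtain ⟨c, c', q, rfl⟩ := of_mem_fam3 hv
        by_cases hc : c = c'
        · exact Or.inr (by simp [up, dn, hc])
        · exact Or.inl (mem_vts_X1 ch hc q).2
      · exact Or.inr (by simp [up, dn]))
  rwa [x1_D, x1_U] at this

theorem run3 : Run (up cl) (dn cl) (((kaps n m).flatMap (X3 ch)).flatMap (itD (dn cl)))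
    (v3 n m) [] ((kaps n m).flatMap fun κ => (X3 ch κ).flatMap (itU (up cl))) := by
  have := run_items (up := up cl) (dn := dn cl) ((kaps n m).flatMap (X3 ch)) (v3 n m) nodup_v3
    (nodup_vts_X3 ch)
    (by
      intro v hv
      rw [vts_X3] at hv
      simp only [List.mem_flatMap] at hv
      obtain ⟨⟨lo, hi, q⟩, _, hx⟩ := hv
      dsimp only at hx
      have e1 : v = t lo hi q ∨ v = t hi lo (neg q) := by
        split_ifs at hx <;> simp at hx <;> tauto
      rcases e1 with rfl | rfl
      · exact mem_fam3 _ _ _ _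
      · exact mem_fam3 _ _ _ _)
    (by
      intro v hv
      obtain ⟨c, c', q, rfl⟩ := of_mem_fam3 hv
      by_cases hc : c = c'
      · exact Or.inr (by simp [up, dn, hc])
      · exact Or.inl (mem_vts_X3 ch hc q))
  rwa [List.flatMap_assoc (g := itU (up cl))] at this

theorem run4 : Run (up cl) (dn cl) ((kaps n m).flatMap fun κ => (X4 κ).flatMap (itD (dn cl)))
    (v4 n m) [] ((kaps n m).flatMap M4) := by
  have := run_items (up := up cl) (dn := dn cl) ((kaps n m).flatMap X4) (v4 n m) nodup_v4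
    nodup_vts_X4
    (by
      intro v hv
      rw [vts_X4] at hv
      simp only [List.mem_flatMap] at hv
      obtain ⟨⟨lo, hi, q⟩, _, hx⟩ := hv
      dsimp only at hx
      have e1 : v = mm lo hi q ∨ v = mm hi lo (neg q) := by simpa using hx
      rcases e1 with rfl | rfl
      · exact mem_fam3 _ _ _ _
      · exact mem_fam3 _ _ _ _)
    (by
      intro v hv
      obtain ⟨c, c', q, rfl⟩ := of_mem_fam3 hv
      by_cases hc : c = c'
      · exact Or.inr (by simp [up, dn, hc])
      · exact Or.inl (mem_vts_X4 hc q))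
  rwa [x4_U, List.flatMap_assoc] at this

theorem run5 (hch : ∀ c, ch c ∈ cl c) :
    Run (up cl) (dn cl) ((List.finRange m).flatMap (T5 ch)) (v5 n m) []
      (((List.finRange m).flatMap (X6 ch)).flatMap (itD (dn cl))) := by
  have := run_items (up := up cl) (dn := dn cl) ((List.finRange m).flatMap (X5 ch)) (v5 n m)
    nodup_v5 (nodup_vts_X5 ch)
    (by
      intro v hv
      rw [vts_X5] at hv
      simp only [List.mem_flatMap, List.mem_cons, List.not_mem_nil, or_false] at hv
      unfold v5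
      simp only [List.mem_append]
      obtain ⟨c, _, q, _, rfl | rfl⟩ := hv
      · exact Or.inl (mem_fam2 _ _ _)
      · exact Or.inr (Or.inl (mem_fam2 _ _ _)))
    (by
      intro v hv
      unfold v5 at hv
      simp only [List.mem_append, List.mem_singleton] at hv
      rcases hv with hv | hv | rfl
      · obtain ⟨c, q, rfl⟩ := of_mem_fam2 hv
        exact Or.inl (mem_vts_X5 ch c q).1
      · obtain ⟨c, q, rfl⟩ := of_mem_fam2 hv
        exact Or.inl (mem_vts_X5 ch c q).2
      · exact Or.inr (by simp [up, dn]))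
  rwa [x5_D, x5_U ch cl hch] at this

theorem run6 : Run (up cl) (dn cl) (((List.finRange m).flatMap (X6 ch)).flatMap (itD (dn cl)))
    (v6 n m) [] [] := by
  have := run_items (up := up cl) (dn := dn cl) ((List.finRange m).flatMap (X6 ch)) (v6 n m)
    nodup_v6 (nodup_vts_X6 ch)
    (by
      intro v hv
      rw [vts_X6] at hv
      simp only [List.mem_flatMap, List.mem_cons, List.not_mem_nil, or_false] at hv
      unfold v6
      simp only [List.mem_append]
      obtain ⟨c, _, q, _, rfl | rfl⟩ := hv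
      · exact Or.inr (mem_fam2 _ _ _)
      · exact Or.inl (mem_fam2 _ _ _))
    (by
      intro v hv
      unfold v6 at hv
      simp only [List.mem_append] at hv
      rcases hv with hv | hv
      · obtain ⟨c, q, rfl⟩ := of_mem_fam2 hv
        exact Or.inl (mem_vts_X6 ch c q).2
      · obtain ⟨c, q, rfl⟩ := of_mem_fam2 hv
        exact Or.inl (mem_vts_X6 ch c q).1)
  rwa [x6_U] at this

end Pool.MP_b347ba_lc
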